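import Pool.Agent.Lib_MP_7e2af8_co.FullOfQ

/-! Averaging over the `p + 1` directions. -/

namespace Pool.Agent.MP7e2af8

open Finset

variable {p : ℕ} [hp : Fact p.Prime]

/-- The linear change of coordinates attached to a direction. -/
def dirE (p : ℕ) : Option (ZMod p) → (ZMod p × ZMod p) ≃+ (ZMod p × ZMod p)
  | none => AddEquiv.refl _
  | some l =>
    { toFun := fun x => (x.2 - l * x.1, x.1)
      invFun := fun y => (y.2, y.1 + l * y.2)
      left_inv := fun x => by ext <;> simp
      right_inv := fun y => by ext <;> simp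
      map_add' := fun x y => by ext <;> simp <;> ring }

/-- Every element of the group is a subset sum. -/
def Full {G : Type*} [AddCommMonoid G] (S : Finset G) : Prop := ∀ g, ∃ B ⊆ S, ∑ b ∈ B, b = g

lemma full_image {G : Type*} [AddCommMonoid G] [DecidableEq G] (e : G ≃+ G) (S : Finset G)
    (h : Full (S.image e)) : Full S := by
  intro g
  obtain ⟨B, hB, hs⟩ := h (e g)
  refine ⟨B.image e.symm, ?_, ?_⟩
  · intro x hx
    rw [Finset.mem_image] at hx
    obtain ⟨y, hy, rfl⟩ := hx
    obtain ⟨z, hz, rfl⟩ := Finset.mem_image.mp (hB hy)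
    simpa using hz
  · rw [Finset.sum_image (fun a _ b _ hab => e.symm.injective hab)]
    rw [← map_sum, hs]
    simp

lemma full_image_iff {G : Type*} [AddCommMonoid G] [DecidableEq G] (e : G ≃+ G) (S : Finset G) :
    Full (S.image e) ↔ Full S := by
  refine ⟨full_image e S, fun h => ?_⟩
  apply full_image e.symm
  rw [Finset.image_image]
  have : (⇑e.symm ∘ ⇑e) = id := by ext x; simp
  rw [this, Finset.image_id]
  exact h

lemma full_mono {G : Type*} [AddCommMonoid G] {S T : Finset G} (h : S ⊆ T) (hS : Full S) :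
    Full T := fun g => by
  obtain ⟨B, hB, hs⟩ := hS g
  exact ⟨B, hB.trans h, hs⟩

lemma dir_unique (z : ZMod p × ZMod p) (hz : z ≠ 0) :
    ((Finset.univ : Finset (Option (ZMod p))).filter (fun d => (dirE p d z).1 = 0)).card = 1 := by
  classical
  rw [Finset.card_eq_one]
  by_cases h1 : z.1 = 0
  · have h2 : z.2 ≠ 0 := fun h => hz (Prod.ext h1 h)
    refine ⟨none, ?_⟩
    ext d
    rw [Finset.mem_filter, Finset.mem_singleton]
    constructor
    · rintro ⟨_, h⟩
      cases d with
      | none => rfl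
      | some l => exfalso; simp only [dirE, AddEquiv.coe_mk, Equiv.coe_fn_mk] at h; rw [h1] at h; simp at h; exact h2 h
    · rintro rfl
      exact ⟨Finset.mem_univ _, by simpa [dirE] using h1⟩
  · refine ⟨some (z.2 / z.1), ?_⟩
    ext d
    rw [Finset.mem_filter, Finset.mem_singleton]
    constructor
    · rintro ⟨_, h⟩
      cases d with
      | none => exact absurd (by simpa [dirE] using h) h1
      | some l =>
        simp only [dirE, AddEquiv.coe_mk, Equiv.coe_fn_mk] at h
        congr 1
        rw [eq_div_iff h1]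
        exact (sub_eq_zero.mp h).symm
    · rintro rfl
      refine ⟨Finset.mem_univ _, ?_⟩
      simp only [dirE, AddEquiv.coe_mk, Equiv.coe_fn_mk]
      rw [div_mul_cancel₀ _ h1, sub_self]

lemma fib_image_card (S : Finset (ZMod p × ZMod p)) (d : Option (ZMod p)) (c : ZMod p) :
    (fib (S.image (dirE p d)) c).card = (S.filter (fun x => (dirE p d x).1 = c)).card := by
  classical
  rw [fib_card, Finset.filter_image, Finset.card_image_of_injective _ (dirE p d).injective]

lemma sum_sq (S : Finset (ZMod p × ZMod p)) (d : Option (ZMod p)) :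
    ∑ c, (S.filter (fun x => (dirE p d x).1 = c)).card ^ 2 =
    ∑ x ∈ S, ∑ y ∈ S, if (dirE p d (x - y)).1 = 0 then 1 else 0 := by
  classical
  have h1 : ∀ c : ZMod p, (S.filter (fun x => (dirE p d x).1 = c)).card ^ 2 =
      ∑ x ∈ S, ∑ y ∈ S, (if (dirE p d x).1 = c then 1 else 0) * (if (dirE p d y).1 = c then 1 else 0) := by
    intro c
    rw [sq, Finset.card_filter, Finset.sum_mul_sum]
  simp only [h1]
  rw [Finset.sum_comm]
  refine Finset.sum_congr rfl fun x _ => ?_
  rw [Finset.sum_comm]
  refine Finset.sum_congr rfl fun y _ => ?_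
  have h2 : ((dirE p d (x - y)).1 = 0) ↔ (dirE p d x).1 = (dirE p d y).1 := by
    rw [map_sub, Prod.fst_sub, sub_eq_zero]
  simp only [h2]
  rw [Finset.sum_eq_single (dirE p d x).1]
  · simp only [if_true, one_mul]
    by_cases h : (dirE p d x).1 = (dirE p d y).1
    · rw [if_pos h.symm, if_pos h]
    · rw [if_neg (fun h' => h h'.symm), if_neg h]
  · intro c _ hc
    rw [if_neg (fun h => hc h.symm), zero_mul]
  · intro h; exact absurd (Finset.mem_univ _) h

lemma total_sq (S : Finset (ZMod p × ZMod p)) :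
    ∑ d : Option (ZMod p), ∑ c, (S.filter (fun x => (dirE p d x).1 = c)).card ^ 2
      = S.card * (S.card + p) := by
  classical
  simp only [sum_sq]
  rw [Finset.sum_comm]
  have h1 : ∀ x ∈ S, ∑ d : Option (ZMod p), ∑ y ∈ S, (if (dirE p d (x - y)).1 = 0 then 1 else 0)
      = S.card + p := by
    intro x hx
    rw [Finset.sum_comm, ← Finset.add_sum_erase S _ hx]
    have h2 : ∑ d : Option (ZMod p), (if (dirE p d (x - x)).1 = 0 then 1 else 0) = p + 1 := by
      simp [Fintype.card_option, ZMod.card]
    have h3 : ∀ y ∈ S.erase x, ∑ d : Option (ZMod p), (if (dirE p d (x - y)).1 = 0 then 1 else 0) = 1 := by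
      intro y hy
      rw [← Finset.card_filter]
      apply dir_unique
      intro h
      exact (Finset.ne_of_mem_erase hy) (sub_eq_zero.mp h).symm
    rw [h2, Finset.sum_congr rfl h3, Finset.sum_const, smul_eq_mul, mul_one,
      Finset.card_erase_of_mem hx]
    have : 0 < S.card := Finset.card_pos.mpr ⟨x, hx⟩
    omega
  rw [Finset.sum_congr rfl h1, Finset.sum_const, smul_eq_mul]

lemma total_n0 (S : Finset (ZMod p × ZMod p)) (h0 : (0 : ZMod p × ZMod p) ∉ S) :
    ∑ d : Option (ZMod p), (S.filter (fun x => (dirE p d x).1 = 0)).card = S.card := by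
  classical
  have h1 : ∀ d : Option (ZMod p), (S.filter (fun x => (dirE p d x).1 = 0)).card =
      ∑ x ∈ S, if (dirE p d x).1 = 0 then 1 else 0 := fun d => Finset.card_filter _ _
  simp only [h1]
  rw [Finset.sum_comm]
  have h2 : ∀ x ∈ S, ∑ d : Option (ZMod p), (if (dirE p d x).1 = 0 then 1 else 0) = 1 := by
    intro x hx
    rw [← Finset.card_filter]
    apply dir_unique
    rintro rfl
    exact h0 hx
  rw [Finset.sum_congr rfl h2, Finset.sum_const, smul_eq_mul, mul_one]

/-- Theorem A for `p ≥ 11`. -/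
theorem thmA_big (hp11 : 11 ≤ p) (S : Finset (ZMod p × ZMod p)) (h0 : (0 : ZMod p × ZMod p) ∉ S)
    (hcard : S.card = 2 * p - 3)
    (hline : ∀ d : Option (ZMod p), (S.filter (fun x => (dirE p d x).1 = 0)).card ≤ p - 2) :
    Full S := by
  classical
  let Q : Option (ZMod p) → ℕ := fun d =>
    ∑ c ∈ Finset.univ.erase (0 : ZMod p), (S.filter (fun x => (dirE p d x).1 = c)).card ^ 2
      + 4 * (((S.filter (fun x => (dirE p d x).1 = 0)).card + 1) ^ 2 / 4)
  have hQ1 : ∀ d, ∑ c, (S.filter (fun x => (dirE p d x).1 = c)).card ^ 2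
      + 2 * (S.filter (fun x => (dirE p d x).1 = 0)).card ≤ Q d := by
    intro d
    simp only [Q]
    rw [← Finset.sum_erase_add _ _ (Finset.mem_univ (0 : ZMod p))]
    set a := (S.filter (fun x => (dirE p d x).1 = 0)).card
    have h1 : (a + 1) ^ 2 ≤ 4 * ((a + 1) ^ 2 / 4) + 1 := by
      rcases Nat.even_or_odd' (a + 1) with ⟨c, hc | hc⟩
      · have : (a + 1) ^ 2 = 4 * (c * c) := by rw [hc]; ring
        rw [this]; omega
      · have : (a + 1) ^ 2 = 4 * (c * c + c) + 1 := by rw [hc]; ring
        rw [this]; omega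
    have h2 : (a + 1) ^ 2 = a ^ 2 + 2 * a + 1 := by ring
    omega
  have hQ2 : (2 * p - 3) * (3 * p - 1) ≤ ∑ d, Q d := by
    have h1 := Finset.sum_le_sum (fun d (_ : d ∈ (Finset.univ : Finset (Option (ZMod p)))) => hQ1 d)
    rw [Finset.sum_add_distrib, total_sq, ← Finset.mul_sum, total_n0 S h0, hcard] at h1
    refine le_trans (le_of_eq ?_) h1
    have : 3 * p - 1 = (2 * p - 3 + p) + 2 := by omega
    rw [this]
    ring
  obtain ⟨d, hd⟩ : ∃ d, (2 * p - 3) * (3 * p - 1) ≤ (p + 1) * Q d := by
    by_contra hcon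
    push Not at hcon
    have h1 : ∑ d : Option (ZMod p), (p + 1) * Q d < ∑ d : Option (ZMod p), (2 * p - 3) * (3 * p - 1) :=
      Finset.sum_lt_sum_of_nonempty Finset.univ_nonempty (fun d _ => hcon d)
    rw [← Finset.mul_sum, Finset.sum_const, Finset.card_univ, Fintype.card_option, ZMod.card,
      smul_eq_mul] at h1
    exact absurd (Nat.mul_le_mul_left (p + 1) hQ2) (not_le.mpr h1)
  apply full_image (dirE p d)
  intro g
  apply full_of_Q hp11 (S.image (dirE p d)) _ _ _ _ g
  · intro h
    rw [Finset.mem_image] at h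
    obtain ⟨x, hx, hx0⟩ := h
    have : x = 0 := (dirE p d).injective (by rw [hx0, map_zero]; rfl)
    exact h0 (this ▸ hx)
  · rw [Finset.card_image_of_injective _ (dirE p d).injective, hcard]
  · rw [fib_image_card]; exact hline d
  · simp only [fib_image_card]
    exact hd

end Pool.Agent.MP7e2af8
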