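import Mathlib

/-! The combinatorial choice of the widths `w`. -/

namespace Pool.Agent.MP7e2af8

open Finset

/-- numeric lemma for the two-layer choice, `p ≥ 17`. -/
lemma numeric_big {p o e X : ℕ} (hp : 17 ≤ p) (h1 : p - 1 ≤ 2 * (o + e))
    (hQ : (2 * p - 3) * (3 * p - 1) ≤ (p + 1) * (o + 4 * X)) (ho : o ≤ p - 1) :
    ∃ k, k ≤ e ∧ p - 1 + k ≤ X ∧ p ≤ (o + k + 1) ^ 2 / 4 + (k + 1) ^ 2 / 4 + 1 := by
  obtain ⟨q, rfl⟩ := Nat.exists_eq_add_of_le hp
  have e1 : 2 * (17 + q) - 3 = 2 * q + 31 := by omega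
  have e2 : 3 * (17 + q) - 1 = 3 * q + 50 := by omega
  have e3 : 17 + q - 1 = q + 16 := by omega
  rw [e1, e2] at hQ
  rw [e3] at h1 ho ⊢
  have hR : 6 * q + 86 ≤ o + 4 * X := by
    by_contra hcon
    have : o + 4 * X ≤ 6 * q + 85 := by omega
    have : (17 + q + 1) * (o + 4 * X) ≤ (17 + q + 1) * (6 * q + 85) := Nat.mul_le_mul_left _ this
    nlinarith
  have hX : q + 16 ≤ X := by omega
  obtain ⟨K, rfl⟩ := Nat.exists_eq_add_of_le hX
  rcases Nat.le_total e K with hk | hk
  · refine ⟨e, le_rfl, by omega, ?_⟩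
    have h2 : 4 * (q + 16) ≤ (o + e + 1) ^ 2 := by
      have h3 : q + 18 ≤ 2 * (o + e + 1) := by omega
      have h4 : (q + 18) * (q + 18) ≤ (2 * (o + e + 1)) * (2 * (o + e + 1)) := Nat.mul_le_mul h3 h3
      nlinarith
    have h5 : q + 16 ≤ (o + e + 1) ^ 2 / 4 := by omega
    omega
  · refine ⟨K, hk, by omega, ?_⟩
    have h2 : 4 * (q + 17) ≤ (o + K + 1) ^ 2 + (K + 1) ^ 2 + 2 := by
      have h3 : 2 * q + 26 ≤ o + 4 * K + 4 := by omega
      have h4 : (2 * q + 26) * (2 * q + 26) ≤ (o + 4 * K + 4) * (o + 4 * K + 4) := Nat.mul_le_mul h3 h3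
      nlinarith [Nat.zero_le (o * K), Nat.zero_le (o * o)]
    have h5 : ∀ x : ℕ, x ^ 2 ≤ 4 * (x ^ 2 / 4) + 1 := by
      intro x
      rcases Nat.even_or_odd' x with ⟨c, rfl | rfl⟩
      · have : (2 * c) ^ 2 = 4 * (c * c) := by ring
        rw [this]; omega
      · have : (2 * c + 1) ^ 2 = 4 * (c * c + c) + 1 := by ring
        rw [this]; omega
    have h6 := h5 (o + K + 1)
    have h7 := h5 (K + 1)
    omega

lemma numeric_11 {o e X : ℕ} (h1 : 10 ≤ 2 * (o + e)) (hne : ¬ (o = 5 ∧ e = 0))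
    (h0 : o = 0 → X % 2 = 0)
    (hQ : 19 * 32 ≤ 12 * (o + 4 * X)) (ho : o ≤ 10) :
    ∃ k, k ≤ e ∧ 10 + k ≤ X ∧ 11 ≤ (o + k + 1) ^ 2 / 4 + (k + 1) ^ 2 / 4 + 1 := by
  interval_cases o
  · exact ⟨4, by omega, by omega, by norm_num⟩
  · exact ⟨3, by omega, by omega, by norm_num⟩
  · exact ⟨3, by omega, by omega, by norm_num⟩
  · exact ⟨2, by omega, by omega, by norm_num⟩
  · exact ⟨1, by omega, by omega, by norm_num⟩
  · exact ⟨1, by omega, by omega, by norm_num⟩
  all_goals exact ⟨0, by omega, by omega, by norm_num⟩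

lemma numeric_13 {o e X : ℕ} (h1 : 12 ≤ 2 * (o + e))
    (hQ : 23 * 38 ≤ 14 * (o + 4 * X)) (ho : o ≤ 12) :
    ∃ k, k ≤ e ∧ 12 + k ≤ X ∧ 13 ≤ (o + k + 1) ^ 2 / 4 + (k + 1) ^ 2 / 4 + 1 := by
  interval_cases o
  · exact ⟨4, by omega, by omega, by norm_num⟩
  · exact ⟨4, by omega, by omega, by norm_num⟩
  · exact ⟨4, by omega, by omega, by norm_num⟩
  · exact ⟨3, by omega, by omega, by norm_num⟩
  · exact ⟨2, by omega, by omega, by norm_num⟩
  · exact ⟨1, by omega, by omega, by norm_num⟩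
  all_goals exact ⟨0, by omega, by omega, by norm_num⟩

section

variable {α : Type*} [DecidableEq α]

/-- minimal feasible widths. -/
lemma exists_min_w (U : Finset α) (n : α → ℕ) (T : ℕ) (hT : T ≤ ∑ c ∈ U, n c) :
    ∃ w : α → ℕ, (∀ c, w c ≤ n c) ∧ (∀ c, w c % 2 = n c % 2) ∧ T ≤ ∑ c ∈ U, w c ∧
      ∀ w' : α → ℕ, (∀ c, w' c ≤ n c) → (∀ c, w' c % 2 = n c % 2) → T ≤ ∑ c ∈ U, w' c →
        ∑ c ∈ U, w c ^ 2 ≤ ∑ c ∈ U, w' c ^ 2 := by
  classical
  have hex : ∃ s, ∃ w : α → ℕ, (∀ c, w c ≤ n c) ∧ (∀ c, w c % 2 = n c % 2) ∧ T ≤ ∑ c ∈ U, w c ∧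
      ∑ c ∈ U, w c ^ 2 = s := ⟨_, n, fun _ => le_rfl, fun _ => rfl, hT, rfl⟩
  obtain ⟨w, h1, h2, h3, h4⟩ := Nat.find_spec hex
  refine ⟨w, h1, h2, h3, ?_⟩
  intro w' h1' h2' h3'
  rw [h4]
  exact Nat.find_min' hex ⟨w', h1', h2', h3', rfl⟩

/-- The exchange argument. `m` is the number of nonempty fibres in `U`. -/
lemma exchange (U : Finset α) (n : α → ℕ) (p n0 : ℕ) (hp : 11 ≤ p) (hodd : p % 2 = 1)
    (hU : U.card ≤ p - 1)
    (hsum : ∑ c ∈ U, n c + n0 = 2 * p - 3) (hn0 : n0 ≤ p - 2)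
    (hm : 2 * (U.filter (fun c => 1 ≤ n c)).card ≤ p - 2 ∨
      (p = 11 ∧ (U.filter (fun c => 1 ≤ n c)).card = 5 ∧ ∀ c ∈ U, 1 ≤ n c → n c % 2 = 1)) :
    ∃ w : α → ℕ, (∀ c, w c ≤ n c) ∧ (∀ c, w c % 2 = n c % 2) ∧ p - 1 ≤ ∑ c ∈ U, w c ∧
      4 * (p - 1) + ∑ c ∈ U, w c ^ 2 ≤ ∑ c ∈ U, n c ^ 2 + 4 * ((n0 + 1) ^ 2 / 4) := by
  classical
  obtain ⟨w, hw1, hw2, hw3, hmin⟩ := exists_min_w U n (p - 1) (by omega)
  refine ⟨w, hw1, hw2, hw3, ?_⟩
  set m := (U.filter (fun c => 1 ≤ n c)).card with hmdef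
  -- (P1)
  have P1 : ∑ c ∈ U, w c ≤ p := by
    by_contra hcon
    push Not at hcon
    have : ∃ c ∈ U, 2 ≤ w c := by
      by_contra h
      push Not at h
      have : ∑ c ∈ U, w c ≤ ∑ c ∈ U, 1 := Finset.sum_le_sum fun c hc => by
        have := h c hc; omega
      simp at this
      omega
    obtain ⟨c, hcU, hc⟩ := this
    have hs1 := Finset.add_sum_erase U w hcU
    have hs2 := Finset.add_sum_erase U (fun x => w x ^ 2) hcU
    let w' : α → ℕ := Function.update w c (w c - 2)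
    have hs3 := Finset.add_sum_erase U w' hcU
    have hs4 := Finset.add_sum_erase U (fun x => w' x ^ 2) hcU
    have he1 : ∑ x ∈ U.erase c, w' x = ∑ x ∈ U.erase c, w x :=
      Finset.sum_congr rfl fun x hx => by
        simp [w', Function.update_of_ne (Finset.ne_of_mem_erase hx)]
    have he2 : ∑ x ∈ U.erase c, w' x ^ 2 = ∑ x ∈ U.erase c, w x ^ 2 :=
      Finset.sum_congr rfl fun x hx => by
        simp [w', Function.update_of_ne (Finset.ne_of_mem_erase hx)]
    have hwc : w' c = w c - 2 := by simp [w']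
    rw [he1, hwc] at hs3
    rw [he2, hwc] at hs4
    have h5 := hmin w' ?_ ?_ ?_
    · have : (w c - 2) ^ 2 < w c ^ 2 := Nat.pow_lt_pow_left (by omega) (by norm_num)
      omega
    · intro x
      by_cases hx : x = c
      · subst hx; rw [hwc]; have := hw1 x; omega
      · simp only [w', Function.update_of_ne hx]; exact hw1 x
    · intro x
      by_cases hx : x = c
      · subst hx; rw [hwc]; have := hw2 x; omega
      · simp only [w', Function.update_of_ne hx]; exact hw2 x
    · omega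
  -- (P2)
  have P2 : ∀ c ∈ U, ∀ c' ∈ U, w c < n c → w c' ≤ w c + 2 := by
    intro c hcU c' hcU' hlt
    by_contra hcon
    push Not at hcon
    have hne : c' ≠ c := by rintro rfl; omega
    have hc2 : w c + 2 ≤ n c := by have := hw2 c; omega
    let w' : α → ℕ := Function.update (Function.update w c (w c + 2)) c' (w c' - 2)
    have hwc : w' c = w c + 2 := by simp [w', Function.update_of_ne hne.symm]
    have hwc' : w' c' = w c' - 2 := by simp [w']
    have hoth : ∀ x, x ≠ c → x ≠ c' → w' x = w x := by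
      intro x h1 h2
      simp [w', Function.update_of_ne h1, Function.update_of_ne h2]
    have hcU'' : c' ∈ U.erase c := Finset.mem_erase.mpr ⟨hne, hcU'⟩
    have hs1 := Finset.add_sum_erase U w hcU
    have hs1' := Finset.add_sum_erase (U.erase c) w hcU''
    have hs2 := Finset.add_sum_erase U (fun x => w x ^ 2) hcU
    have hs2' := Finset.add_sum_erase (U.erase c) (fun x => w x ^ 2) hcU''
    have hs3 := Finset.add_sum_erase U w' hcU
    have hs3' := Finset.add_sum_erase (U.erase c) w' hcU''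
    have hs4 := Finset.add_sum_erase U (fun x => w' x ^ 2) hcU
    have hs4' := Finset.add_sum_erase (U.erase c) (fun x => w' x ^ 2) hcU''
    have he1 : ∑ x ∈ (U.erase c).erase c', w' x = ∑ x ∈ (U.erase c).erase c', w x :=
      Finset.sum_congr rfl fun x hx => by
        rw [Finset.mem_erase, Finset.mem_erase] at hx
        exact hoth x hx.2.1 hx.1
    have he2 : ∑ x ∈ (U.erase c).erase c', w' x ^ 2 = ∑ x ∈ (U.erase c).erase c', w x ^ 2 :=
      Finset.sum_congr rfl fun x hx => by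
        rw [Finset.mem_erase, Finset.mem_erase] at hx
        rw [hoth x hx.2.1 hx.1]
    rw [hwc] at hs3 hs4
    rw [hwc', he1] at hs3'
    rw [hwc', he2] at hs4'
    have h5 := hmin w' ?_ ?_ ?_
    · obtain ⟨d, hd⟩ := Nat.exists_eq_add_of_le (show w c + 3 ≤ w c' by omega)
      have h6 : w c' - 2 = w c + 1 + d := by omega
      rw [h6] at hs4'
      rw [hd] at hs2'
      nlinarith
    · intro x
      by_cases hx : x = c
      · subst hx; rw [hwc]; exact hc2
      · by_cases hx' : x = c'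
        · subst hx'; rw [hwc']; have := hw1 x; omega
        · rw [hoth x hx hx']; exact hw1 x
    · intro x
      by_cases hx : x = c
      · subst hx; rw [hwc]; have := hw2 x; omega
      · by_cases hx' : x = c'
        · subst hx'; rw [hwc']; have := hw2 x; omega
        · rw [hoth x hx hx']; exact hw2 x
    · omega
  -- M ≥ 3
  have hM : ∃ c ∈ U, 3 ≤ w c := by
    by_contra h
    push Not at h
    rcases hm with hm | ⟨hp11, hm5, hall⟩
    · have h2 : ∑ c ∈ U, w c ≤ ∑ c ∈ U, if 1 ≤ n c then 2 else 0 :=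
        Finset.sum_le_sum fun c hc => by
          have h3 := h c hc
          have h4 := hw1 c
          split_ifs <;> omega
      rw [← Finset.sum_filter, Finset.sum_const, smul_eq_mul] at h2
      omega
    · have h2 : ∑ c ∈ U, w c ≤ ∑ c ∈ U, if 1 ≤ n c then 1 else 0 :=
        Finset.sum_le_sum fun c hc => by
          have h3 := h c hc
          have h4 := hw1 c
          have h5 := hw2 c
          have h6 := hall c hc
          split_ifs with h7
          · have := h6 h7; omega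
          · omega
      rw [← Finset.sum_filter, Finset.sum_const, smul_eq_mul] at h2
      omega
  have hpar : (∑ c ∈ U, w c) % 2 = (∑ c ∈ U, n c) % 2 := by
    have h1 : ∀ c ∈ U, n c = w c + 2 * ((n c - w c) / 2) := by
      intro c _
      have h2 := hw1 c
      have h3 := hw2 c
      omega
    rw [Finset.sum_congr rfl h1, Finset.sum_add_distrib, ← Finset.mul_sum]
    omega
  -- squares of n0
  have hg : ∃ a, (n0 = 2 * a ∧ (n0 + 1) ^ 2 / 4 = a * a + a) ∨
      (n0 = 2 * a + 1 ∧ (n0 + 1) ^ 2 / 4 = (a + 1) * (a + 1)) := by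
    rcases Nat.even_or_odd' n0 with ⟨a, ha | ha⟩
    · refine ⟨a, Or.inl ⟨ha, ?_⟩⟩
      have : (n0 + 1) ^ 2 = 4 * (a * a + a) + 1 := by rw [ha]; ring
      rw [this]; omega
    · refine ⟨a, Or.inr ⟨ha, ?_⟩⟩
      have : (n0 + 1) ^ 2 = 4 * ((a + 1) * (a + 1)) := by rw [ha]; ring
      rw [this]; omega
  obtain ⟨c0, hc0U, hc0⟩ := hM
  by_cases hM4 : ∃ c ∈ U, 4 ≤ w c
  · -- M ≥ 4
    obtain ⟨c1, hc1U, hc1⟩ := hM4
    have key : ∀ c ∈ U, w c ^ 2 + 6 * n c ≤ n c ^ 2 + 6 * w c := by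
      intro c hc
      have h1 := hw1 c
      rcases Nat.lt_or_ge (w c) (n c) with h2 | h2
      · have h3 := P2 c hc c1 hc1U h2
        have h4 : w c + 2 ≤ n c := by have := hw2 c; omega
        obtain ⟨d, hd⟩ := Nat.exists_eq_add_of_le h4
        rw [hd]
        nlinarith
      · have : w c = n c := by omega
        rw [this]
    have key2 := Finset.sum_le_sum key
    rw [Finset.sum_add_distrib, Finset.sum_add_distrib, ← Finset.mul_sum, ← Finset.mul_sum] at key2
    obtain ⟨a, ⟨ha, hga⟩ | ⟨ha, hga⟩⟩ := hg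
    · rw [hga]
      have h7 : 4 * a ≤ 2 * (a * a) + 2 := by nlinarith [sq_nonneg ((a : ℤ) - 1)]
      omega
    · rw [hga]
      have h7 : (a + 1) * (a + 1) = a * a + 2 * a + 1 := by ring
      have h8 : a ≤ a * a := Nat.le_mul_self a
      omega
  · -- M = 3
    push Not at hM4
    have key : ∀ c ∈ U, w c ^ 2 + 4 * n c ≤ n c ^ 2 + 4 * w c := by
      intro c hc
      have h1 := hw1 c
      rcases Nat.lt_or_ge (w c) (n c) with h2 | h2
      · have h3 := P2 c hc c0 hc0U h2
        have h4 : w c + 2 ≤ n c := by have := hw2 c; omega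
        obtain ⟨d, hd⟩ := Nat.exists_eq_add_of_le h4
        rw [hd]
        nlinarith
      · have : w c = n c := by omega
        rw [this]
    have key' : ∀ c ∈ U, w c ^ 2 + 8 * n c ≤ n c ^ 2 + 4 * w c + (if 1 ≤ n c then 12 else 0) := by
      intro c hc
      have h1 := hw1 c
      have h10 := hM4 c hc
      rcases Nat.lt_or_ge (w c) (n c) with h2 | h2
      · have h3 := P2 c hc c0 hc0U h2
        have h4 : w c + 2 ≤ n c := by have := hw2 c; omega
        have h5 : 1 ≤ w c := by omega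
        have h6 : 1 ≤ n c := by omega
        rw [if_pos h6]
        obtain ⟨d, hd⟩ : ∃ d, n c = w c + 2 + 2 * d := by
          have := hw2 c
          exact ⟨(n c - (w c + 2)) / 2, by omega⟩
        have hdd : d ≤ d * d := Nat.le_mul_self d
        have h7 : w c = 1 ∨ w c = 2 ∨ w c = 3 := by omega
        rcases h7 with h7 | h7 | h7
        · rw [hd, h7]; nlinarith
        · rw [hd, h7]; nlinarith
        · rw [hd, h7]; nlinarith
      · have h3 : w c = n c := by omega
        rcases Nat.eq_zero_or_pos (n c) with h4 | h4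
        · rw [h3, h4]; norm_num
        · rw [if_pos (show 1 ≤ n c from h4), h3]; omega
    have key2 := Finset.sum_le_sum key
    rw [Finset.sum_add_distrib, Finset.sum_add_distrib, ← Finset.mul_sum, ← Finset.mul_sum] at key2
    have key3 := Finset.sum_le_sum key'
    rw [Finset.sum_add_distrib, Finset.sum_add_distrib, Finset.sum_add_distrib, ← Finset.mul_sum,
      ← Finset.mul_sum, ← Finset.sum_filter, Finset.sum_const, smul_eq_mul] at key3
    obtain ⟨a, ⟨ha, hga⟩ | ⟨ha, hga⟩⟩ := hg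
    · rw [hga]
      rcases Nat.lt_or_ge a 2 with ha2 | ha2
      · have h12 : a = 0 ∨ a = 1 := by omega
        rcases h12 with rfl | rfl
        · rcases hm with hm | hm <;> omega
        · rcases hm with hm | hm <;> omega
      · have h7 : 2 * a ≤ a * a := Nat.mul_le_mul_right a ha2
        omega
    · rw [hga]
      have h7 : (a + 1) * (a + 1) = a * a + 2 * a + 1 := by ring
      rcases Nat.eq_zero_or_pos a with ha0 | ha0
      · subst ha0
        rcases hm with hm | hm <;> omega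
      · have h8 : a ≤ a * a := Nat.le_mul_self a
        have h9 : 1 ≤ a * a := Nat.mul_pos ha0 ha0
        omega

end

end Pool.Agent.MP7e2af8
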