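import Mathlib

/-! The Dias da Silva - Hamidoune theorem in `ZMod p`, through the combinatorial
Nullstellensatz (proof of Alon, Nathanson and Ruzsa). -/

namespace Pool.Agent.MP7e2af8

open Finset MvPolynomial

section Coeff

variable {R : Type*} [CommRing R] {j : ℕ}

/-- The exponent vector of the monomial attached to a permutation. -/
noncomputable def permExp (σ : Equiv.Perm (Fin j)) : Fin j →₀ ℕ :=
  Finsupp.equivFunOnFinite.symm (fun i => (σ i : ℕ))

@[simp] lemma permExp_apply (σ : Equiv.Perm (Fin j)) (i : Fin j) : permExp σ i = (σ i : ℕ) := rfl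

/-- The Vandermonde polynomial. -/
noncomputable def vand (R : Type*) [CommRing R] (j : ℕ) : MvPolynomial (Fin j) R :=
  (Matrix.vandermonde (fun i : Fin j => (X i : MvPolynomial (Fin j) R))).det

lemma vand_eq : vand R j = ∑ σ : Equiv.Perm (Fin j),
    ((Equiv.Perm.sign σ : ℤ) : MvPolynomial (Fin j) R) * monomial (permExp σ) 1 := by
  classical
  unfold vand
  rw [← Matrix.det_transpose, Matrix.det_apply']
  refine Finset.sum_congr rfl fun σ _ => ?_
  congr 1
  rw [monomial_eq]
  simp only [map_one, one_mul]
  rw [Finsupp.prod_fintype _ _ (by intro i; simp)]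
  simp [Matrix.vandermonde]

lemma degree_permExp (σ : Equiv.Perm (Fin j)) : (permExp σ).degree = ∑ i : Fin j, (i : ℕ) := by
  rw [Finsupp.degree_eq_sum]
  simp only [permExp_apply]
  exact Equiv.sum_comp σ (fun i : Fin j => (i : ℕ))

lemma vand_homog : (vand R j).IsHomogeneous (∑ i : Fin j, (i : ℕ)) := by
  classical
  rw [vand_eq]
  refine IsHomogeneous.sum _ _ _ fun σ _ => ?_
  have h1 : ((((Equiv.Perm.sign σ : ℤ)) : MvPolynomial (Fin j) R)).IsHomogeneous 0 := by
    have : (((Equiv.Perm.sign σ : ℤ)) : MvPolynomial (Fin j) R)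
      = C ((((Equiv.Perm.sign σ : ℤ)) : R)) := by simp
    rw [this]
    exact isHomogeneous_C _ _
  have h2 := isHomogeneous_monomial (R := R) (σ := Fin j) (n := ∑ i : Fin j, (i : ℕ))
    (d := permExp σ) 1 (degree_permExp σ)
  simpa using h1.mul h2

lemma sumX_homog : (∑ i : Fin j, (X i : MvPolynomial (Fin j) R)).IsHomogeneous 1 :=
  IsHomogeneous.sum _ _ _ fun _ _ => isHomogeneous_X _ _

/-- Coefficient formula. -/
lemma coeff_formula [IsDomain R] (m : ℕ) (t : Fin j →₀ ℕ)
    (ht : t.degree = m + ∑ i : Fin j, (i : ℕ)) :
    ((∏ i, (t i).factorial : ℕ) : R) *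
      coeff t ((∑ i : Fin j, (X i : MvPolynomial (Fin j) R)) ^ m * vand R j) =
    (m.factorial : R) * (Matrix.vandermonde (fun i : Fin j => ((t i : ℕ) : R))).det := by
  classical
  rw [Matrix.det_eval_matrixOfPolynomials_eq_det_vandermonde
    (fun i : Fin j => ((t i : ℕ) : R)) (fun i => descPochhammer R i)
    (fun i => descPochhammer_natDegree R i) (fun i => monic_descPochhammer R i)]
  rw [← Matrix.det_transpose, Matrix.det_apply', vand_eq, Finset.mul_sum, coeff_sum,
    Finset.mul_sum, Finset.mul_sum]
  refine Finset.sum_congr rfl fun σ _ => ?_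
  have hc : (((Equiv.Perm.sign σ : ℤ)) : MvPolynomial (Fin j) R)
      = C ((((Equiv.Perm.sign σ : ℤ)) : R)) := by simp
  rw [hc, mul_left_comm, coeff_C_mul, coeff_mul_monomial', coeff_sum_X_pow_of_fintype]
  simp only [Matrix.transpose_apply, Matrix.of_apply, descPochhammer_eval_eq_descFactorial, mul_one]
  have key : (if permExp σ ≤ t then
      (((if (t - permExp σ).sum (fun _ m => m) = m then (t - permExp σ).multinomial else 0 : ℕ)) : R)
      else 0) * ((∏ i, (t i).factorial : ℕ) : R)
      = (m.factorial : R) * ∏ x, (((t x).descFactorial (σ x) : ℕ) : R) := by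
    split_ifs with h1 h2
    · have e1 : (∏ i, ((t - permExp σ) i).factorial) * (t - permExp σ).multinomial
          = m.factorial := by
        rw [Finsupp.multinomial_eq_of_support_subset (Finset.subset_univ _),
          Nat.multinomial_spec]
        congr 1
        rw [← h2, Finsupp.sum_fintype _ _ (by intro; rfl)]
      have e2 : ∀ i, (t i).factorial = ((t - permExp σ) i).factorial
          * (t i).descFactorial (σ i) := by
        intro i
        have : (σ i : ℕ) ≤ t i := h1 i
        rw [← Nat.factorial_mul_descFactorial this]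
        rfl
      have e3 : (∏ i, (t i).factorial) = (∏ i, ((t - permExp σ) i).factorial)
          * ∏ i, (t i).descFactorial (σ i) := by
        rw [← Finset.prod_mul_distrib]
        exact Finset.prod_congr rfl fun i _ => e2 i
      rw [e3, ← e1]
      push_cast
      ring
    · exfalso
      apply h2
      have h3 : (t - permExp σ) + permExp σ = t := tsub_add_cancel_of_le h1
      have h4 : ((t - permExp σ) + permExp σ).degree = t.degree := by rw [h3]
      rw [map_add, degree_permExp, ht] at h4
      have h5 : (t - permExp σ).sum (fun _ m => m) = (t - permExp σ).degree := rfl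
      rw [h5]
      omega
    · have : ∃ i, t i < (σ i : ℕ) := by
        by_contra hcon
        push Not at hcon
        exact h1 hcon
      obtain ⟨i, hi⟩ := this
      have : (∏ x, (((t x).descFactorial (σ x) : ℕ) : R)) = 0 := by
        apply Finset.prod_eq_zero (Finset.mem_univ i)
        rw [Nat.descFactorial_eq_zero_iff_lt.mpr hi]
        simp
      rw [this]
      simp
  have : ∀ a b c : R, a * (b * c) = b * (c * a) := by intros; ring
  rw [this, key]
  ring

end Coeff

section Exponents

/-- The exponents `i + m / j + [j - m % j ≤ i]`. -/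
def expo (j m i : ℕ) : ℕ := i + m / j + if j - m % j ≤ i then 1 else 0

lemma expo_strict {j m i k : ℕ} (h : i < k) : expo j m i < expo j m k := by
  unfold expo
  split_ifs <;> omega

lemma expo_lt {j m a i : ℕ} (hj : j ≤ a) (hm : m ≤ j * (a - j)) (hi : i < j) :
    expo j m i < a := by
  unfold expo
  have hj0 : 0 < j := by omega
  have h1 : m / j ≤ a - j := Nat.div_le_of_le_mul hm
  split_ifs with h
  · have hr : 0 < m % j := by
      by_contra hcon
      have : m % j = 0 := by omega
      omega
    have h2 : m / j < a - j := by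
      rcases Nat.lt_or_ge (m / j) (a - j) with h3 | h3
      · exact h3
      · exfalso
        have h4 : m / j = a - j := le_antisymm h1 h3
        have h5 := Nat.div_add_mod m j
        rw [h4] at h5
        omega
    omega
  · omega

lemma expo_sum {j m : ℕ} (hj : 0 < j) :
    ∑ i : Fin j, expo j m i = m + ∑ i : Fin j, (i : ℕ) := by
  unfold expo
  rw [Finset.sum_add_distrib, Finset.sum_add_distrib]
  have h1 : ∑ _i : Fin j, m / j = j * (m / j) := by simp
  have h2 : ∑ i : Fin j, (if j - m % j ≤ (i : ℕ) then 1 else 0) = m % j := by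
    rw [Fin.sum_univ_eq_sum_range (fun i => if j - m % j ≤ i then 1 else 0) j,
      ← Finset.sum_filter, Finset.sum_const, smul_eq_mul, mul_one]
    have : (Finset.range j).filter (fun i => j - m % j ≤ i) = Finset.Ico (j - m % j) j := by
      ext i
      simp only [Finset.mem_filter, Finset.mem_range, Finset.mem_Ico]
      omega
    rw [this, Nat.card_Ico]
    have := Nat.mod_lt m hj
    omega
  rw [h1, h2]
  have := Nat.div_add_mod m j
  omega

end Exponents

section Main

variable {p : ℕ} [hp : Fact p.Prime]

open Polynomial in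
lemma coeff_prod_sub {j : ℕ} (C0 : Finset (ZMod p)) (t : Fin j →₀ ℕ)
    (ht : t.degree = C0.card + ∑ i : Fin j, (i : ℕ)) :
    MvPolynomial.coeff t ((∏ c ∈ C0, ((∑ i : Fin j, (MvPolynomial.X i : MvPolynomial (Fin j) (ZMod p)))
        - MvPolynomial.C c)) * vand (ZMod p) j) =
    MvPolynomial.coeff t ((∑ i : Fin j, (MvPolynomial.X i : MvPolynomial (Fin j) (ZMod p))) ^ C0.card
      * vand (ZMod p) j) := by
  classical
  set s : MvPolynomial (Fin j) (ZMod p) := ∑ i : Fin j, MvPolynomial.X i with hs
  set g : Polynomial (ZMod p) := ∏ c ∈ C0, (Polynomial.X - Polynomial.C c) with hg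
  have hgm : g.Monic := Polynomial.monic_prod_of_monic _ _ fun c _ => Polynomial.monic_X_sub_C c
  have hgd : g.natDegree = C0.card := by
    rw [hg, Polynomial.natDegree_prod_of_monic _ _ (fun c _ => Polynomial.monic_X_sub_C c)]
    simp
  have h1 : ∏ c ∈ C0, (s - MvPolynomial.C c) = Polynomial.aeval s g := by
    rw [hg, map_prod]
    refine Finset.prod_congr rfl fun c _ => ?_
    rw [map_sub, Polynomial.aeval_X, Polynomial.aeval_C]
    rfl
  rw [h1, Polynomial.aeval_eq_sum_range, Finset.sum_mul, MvPolynomial.coeff_sum,
    Finset.sum_range_succ, hgd, Finset.sum_eq_zero, zero_add]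
  · have : g.coeff C0.card = 1 := by rw [← hgd]; exact hgm
    rw [this, one_smul]
  · intro k hk
    rw [Finset.mem_range] at hk
    rw [smul_mul_assoc, MvPolynomial.coeff_smul]
    have hh : (s ^ k * vand (ZMod p) j).IsHomogeneous (k + ∑ i : Fin j, (i : ℕ)) := by
      have := (sumX_homog (R := ZMod p) (j := j)).pow k
      simpa using this.mul (vand_homog (R := ZMod p) (j := j))
    rw [hh.coeff_eq_zero, smul_zero]
    rw [ht]
    omega

/-- Sums of `j` distinct elements of `A`. -/
def jsums (A : Finset (ZMod p)) (j : ℕ) : Finset (ZMod p) :=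
  (A.powersetCard j).image (fun B => ∑ x ∈ B, x)

theorem ddsh (A : Finset (ZMod p)) (j : ℕ) (hj : j ≤ A.card) :
    min p (j * (A.card - j) + 1) ≤ (jsums A j).card := by
  classical
  rcases Nat.eq_zero_or_pos j with hj0 | hj0
  · subst hj0
    have : (jsums A 0) = {0} := by simp [jsums]
    rw [this]
    simp
  by_contra hcon
  push Not at hcon
  set m := min (p - 1) (j * (A.card - j)) with hm
  have hp1 : 1 < p := hp.out.one_lt
  have h1 : (jsums A j).card ≤ m := by omega
  have h2 : m ≤ Fintype.card (ZMod p) := by rw [ZMod.card]; omega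
  obtain ⟨C0, hC1, hC2⟩ := Finset.exists_superset_card_eq h1 h2
  let t : Fin j →₀ ℕ := Finsupp.equivFunOnFinite.symm (fun i => expo j m i)
  have hti : ∀ i, t i = expo j m i := fun i => rfl
  have htd : t.degree = C0.card + ∑ i : Fin j, (i : ℕ) := by
    rw [hC2, ← expo_sum hj0, Finsupp.degree_eq_sum]
    rfl
  have hlt : ∀ i, t i < A.card := fun i =>
    expo_lt hj (by omega) i.2
  have hAp : A.card ≤ p := by
    have := Finset.card_le_univ A
    rwa [ZMod.card] at this
  set f : MvPolynomial (Fin j) (ZMod p) :=
    (∏ c ∈ C0, ((∑ i : Fin j, (X i : MvPolynomial (Fin j) (ZMod p))) - C c)) * vand (ZMod p) j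
    with hf
  have hcoef : coeff t f ≠ 0 := by
    rw [hf, coeff_prod_sub C0 t htd]
    intro h0
    have hform := coeff_formula (R := ZMod p) C0.card t htd
    rw [h0, mul_zero] at hform
    have hne : ((C0.card.factorial : ZMod p)) ≠ 0 := by
      rw [Ne, ZMod.natCast_eq_zero_iff, hp.out.dvd_factorial]
      omega
    have hv : (Matrix.vandermonde (fun i : Fin j => ((t i : ℕ) : ZMod p))).det ≠ 0 := by
      rw [Matrix.det_vandermonde_ne_zero_iff]
      intro a b hab
      simp only [hti] at hab
      have ha : expo j m a < p := lt_of_lt_of_le (hlt a) hAp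
      have hb : expo j m b < p := lt_of_lt_of_le (hlt b) hAp
      have hab' : expo j m a = expo j m b := by
        have := (ZMod.natCast_eq_natCast_iff' _ _ _).mp hab
        rwa [Nat.mod_eq_of_lt ha, Nat.mod_eq_of_lt hb] at this
      rcases lt_trichotomy (a : ℕ) (b : ℕ) with h | h | h
      · have := expo_strict (j := j) (m := m) h; omega
      · exact Fin.ext h
      · have := expo_strict (j := j) (m := m) h; omega
    exact (mul_ne_zero hne hv) hform.symm
  have hdeg : f.totalDegree = t.degree := by
    apply le_antisymm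
    · rw [hf]
      refine (totalDegree_mul _ _).trans ?_
      rw [htd]
      apply Nat.add_le_add
      · refine (totalDegree_finsetProd _ _).trans ?_
        refine (Finset.sum_le_card_nsmul _ _ 1 ?_).trans (by simp)
        intro c _
        refine (totalDegree_sub _ _).trans ?_
        rw [totalDegree_C]
        simp only [zero_le, sup_of_le_left]
        exact (sumX_homog (R := ZMod p) (j := j)).totalDegree_le
      · exact (vand_homog (R := ZMod p) (j := j)).totalDegree_le
    · exact le_totalDegree (mem_support_iff.mpr hcoef)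
  obtain ⟨x, hxA, hx⟩ := combinatorial_nullstellensatz_exists_eval_nonzero f t hcoef hdeg
    (fun _ => A) hlt
  rw [hf, map_mul, mul_ne_zero_iff] at hx
  obtain ⟨hx1, hx2⟩ := hx
  have hinj : Function.Injective x := by
    have : eval x (vand (ZMod p) j) = (Matrix.vandermonde x).det := by
      unfold vand
      rw [RingHom.map_det]
      congr 1
      ext a b
      simp [Matrix.vandermonde]
    rw [this, Matrix.det_vandermonde_ne_zero_iff] at hx2
    exact hx2
  have hmem : ∑ i, x i ∈ jsums A j := by
    unfold jsums
    rw [Finset.mem_image]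
    refine ⟨Finset.univ.image x, ?_, ?_⟩
    · rw [Finset.mem_powersetCard]
      refine ⟨?_, ?_⟩
      · intro y hy
        rw [Finset.mem_image] at hy
        obtain ⟨i, _, rfl⟩ := hy
        exact hxA i
      · rw [Finset.card_image_of_injective _ hinj]
        simp
    · rw [Finset.sum_image (fun a _ b _ h => hinj h)]
  apply hx1
  rw [map_prod]
  apply Finset.prod_eq_zero (hC1 hmem)
  simp

end Main

end Pool.Agent.MP7e2af8
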