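import Pool.Agent.Lib_MP_7e2af8_co.Link

/-! The case `p = 7`. -/

namespace Pool.Agent.MP7e2af8

open Finset

def F7 : ℕ := 562949953421311

def e0_7 : Ent := ⟨1, 0, 7, 42, 7, 562949953421311, 0⟩

def es0_7 : List Ent := [⟨2, 0, 14, 35, 7, 562949953421311, 0⟩, ⟨3, 0, 21, 28, 7, 562949953421311, 0⟩]

def e1_7 : Ent := ⟨0, 1, 0, 49, 6, 279258638311359, 283691315109952⟩

def es1_7 : List Ent := [⟨0, 2, 0, 49, 5, 137412980756383, 425536972664928⟩, ⟨0, 3, 0, 49, 4, 66490151978895, 496459801442416⟩]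

def Ls_7 : List (List Ent) := [
  [⟨1, 1, 7, 42, 6, 279258638311359, 283691315109952⟩, ⟨2, 2, 14, 35, 5, 137412980756383, 425536972664928⟩, ⟨3, 3, 21, 28, 4, 66490151978895, 496459801442416⟩],
  [⟨1, 2, 7, 42, 5, 137412980756383, 425536972664928⟩, ⟨2, 4, 14, 35, 3, 31028737590151, 531921215831160⟩, ⟨3, 6, 21, 28, 1, 4432676798593, 558517276622718⟩],
  [⟨1, 3, 7, 42, 4, 66490151978895, 496459801442416⟩, ⟨2, 6, 14, 35, 1, 4432676798593, 558517276622718⟩, ⟨3, 2, 21, 28, 5, 137412980756383, 425536972664928⟩],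
  [⟨1, 4, 7, 42, 3, 31028737590151, 531921215831160⟩, ⟨2, 1, 14, 35, 6, 279258638311359, 283691315109952⟩, ⟨3, 5, 21, 28, 2, 13298030395779, 549651923025532⟩],
  [⟨1, 5, 7, 42, 2, 13298030395779, 549651923025532⟩, ⟨2, 3, 14, 35, 4, 66490151978895, 496459801442416⟩, ⟨3, 1, 21, 28, 6, 279258638311359, 283691315109952⟩],
  [⟨1, 6, 7, 42, 1, 4432676798593, 558517276622718⟩, ⟨2, 5, 14, 35, 2, 13298030395779, 549651923025532⟩, ⟨3, 4, 21, 28, 3, 31028737590151, 531921215831160⟩]]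


lemma fact_prime_seven : Fact (Nat.Prime 7) := ⟨by norm_num⟩

attribute [local instance] fact_prime_seven

set_option maxRecDepth 100000 in
theorem search7 : goTop F7 11 5 (fun _ => false) e0_7 es0_7 e1_7 es1_7 Ls_7 = true := by
  decide +kernel

/-- all entries -/
def all7 : List Ent := (e0_7 :: es0_7) ++ ((e1_7 :: es1_7) ++ Ls_7.flatten)

set_option maxRecDepth 100000 in
theorem ok7 : ∀ e ∈ all7, e.OK 7 := by decide +kernel

set_option maxRecDepth 100000 in
theorem reps7 : IsReps (all7.map (Ent.el 7)) := by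
  refine ⟨?_, ?_, ?_⟩
  · decide +kernel
  · decide +kernel
  · decide +kernel

set_option maxRecDepth 100000 in
theorem ind7 : (∀ z : ZMod 7 × ZMod 7, z ≠ 0 → ind 7 all7 z = 1) := by decide +kernel

set_option maxRecDepth 100000 in
theorem ind7a : (∀ z : ZMod 7 × ZMod 7, z ≠ 0 →
    ind 7 (e0_7 :: es0_7) z = if dt z (1, 0) = 0 then 1 else 0) := by decide +kernel

set_option maxRecDepth 100000 in
theorem ind7b : (∀ z : ZMod 7 × ZMod 7, z ≠ 0 →
    ind 7 (e1_7 :: es1_7) z = if dt z (0, 1) = 0 then 1 else 0) := by decide +kernel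

set_option maxRecDepth 100000 in
theorem ind7c : ∀ L ∈ Ls_7, ((L.headD e0_7).el 7).2 ≠ 0 ∧ (∀ z : ZMod 7 × ZMod 7, z ≠ 0 →
    ind 7 L z = if dt z ((L.headD e0_7).el 7) = 0 then 1 else 0) := by decide +kernel

theorem thmA_7 (S : Finset (ZMod 7 × ZMod 7)) (h0 : (0 : ZMod 7 × ZMod 7) ∉ S)
    (hcard : S.card = 11) (hline : ∀ v ≠ 0, lc S v ≤ 5) : Full S := by
  classical
  obtain ⟨e, h10, h01, hc0, hc1, hc2⟩ := normalize S 5 h0 hline (by omega)
  rw [← full_image_iff e S, full_iff_cov (S.image e) _ reps7]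
  have h0' : (0 : ZMod 7 × ZMod 7) ∉ S.image e := by
    intro h
    obtain ⟨x, hx, hx0⟩ := Finset.mem_image.mp h
    have : x = 0 := e.injective (by rw [hx0, map_zero])
    exact h0 (this ▸ hx)
  have hcard' : (S.image e).card = 11 := by
    rw [Finset.card_image_of_injective _ e.injective, hcard]
  have hF : F7 = 2 ^ (7 * 7) - 1 := by norm_num [F7]
  have hs := search7
  rw [hF] at hs
  have ht0 := tot_eq_lc (S.image e) h0' _ _ ind7a
  have ht1 := tot_eq_lc (S.image e) h0' _ _ ind7b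
  rcases goTop_sound (p := 7) (mu (S.image e)) 11 5 (fun _ => false) e0_7 es0_7 e1_7 es1_7 Ls_7
    ok7 (fun _ _ => mu_le_two _ _) (one_le_mu _ _ h10) (one_le_mu _ _ h01)
    (by rw [ht0]; exact hc0) (by rw [ht0, ht1]; exact hc1)
    (fun L hL => by
      rw [ht1, tot_eq_lc (S.image e) h0' L _ (ind7c L hL).2]
      exact hc2 _ (ind7c L hL).1)
    (by rw [← hcard']; exact tot_eq_card (S.image e) h0' all7 ind7) hs with h | h
  · exact h
  · exact absurd h (by simp)

end Pool.Agent.MP7e2af8
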