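import Pool.Agent.Lib_MP_7e2af8_co.P5
import Pool.Agent.Lib_MP_7e2af8_co.P7

/-! Final assembly. -/

namespace Pool.Agent.MP7e2af8

open Finset
open scoped Pointwise

section

variable {p : ℕ} [hp : Fact p.Prime]

lemma dt_add (x y v : ZMod p × ZMod p) : dt (x + y) v = dt x v + dt y v := by
  unfold dt; simp only [Prod.fst_add, Prod.snd_add]; ring

lemma dt_zero (v : ZMod p × ZMod p) : dt 0 v = 0 := by unfold dt; simp

lemma dt_sub (x y v : ZMod p × ZMod p) : dt (x - y) v = dt x v - dt y v := by
  unfold dt; simp only [Prod.fst_sub, Prod.snd_sub]; ring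

lemma dt_sum (B : Finset (ZMod p × ZMod p)) (v : ZMod p × ZMod p) :
    dt (∑ b ∈ B, b) v = ∑ b ∈ B, dt b v := by
  classical
  induction B using Finset.induction_on with
  | empty => simp [dt_zero]
  | insert a B ha ih => rw [Finset.sum_insert ha, Finset.sum_insert ha, dt_add, ih]

lemma dt_nsmul (n : ℕ) (x v : ZMod p × ZMod p) : dt (n • x) v = (n : ZMod p) * dt x v := by
  induction n with
  | zero => simp [dt_zero]
  | succ n ih => rw [succ_nsmul, dt_add, ih]; push_cast; ring

/-- the multiples of `v` -/
def lineF (v : ZMod p × ZMod p) : Finset (ZMod p × ZMod p) :=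
  Finset.univ.image (fun c : ZMod p => (c * v.1, c * v.2))

lemma lineF_inj {v : ZMod p × ZMod p} (hv : v ≠ 0) :
    Function.Injective (fun c : ZMod p => (c * v.1, c * v.2)) := by
  intro a b hab
  simp only [Prod.mk.injEq] at hab
  by_cases h1 : v.1 = 0
  · have h2 : v.2 ≠ 0 := fun h => hv (Prod.ext h1 h)
    exact mul_right_cancel₀ h2 hab.2
  · exact mul_right_cancel₀ h1 hab.1

lemma card_lineF {v : ZMod p × ZMod p} (hv : v ≠ 0) : (lineF v).card = p := by
  unfold lineF
  rw [Finset.card_image_of_injective _ (lineF_inj hv), Finset.card_univ, ZMod.card]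

lemma mem_lineF {v : ZMod p × ZMod p} (hv : v ≠ 0) (x : ZMod p × ZMod p) :
    x ∈ lineF v ↔ dt x v = 0 := by
  unfold lineF
  rw [Finset.mem_image]
  constructor
  · rintro ⟨c, _, rfl⟩
    unfold dt; ring
  · intro h
    unfold dt at h
    by_cases h1 : v.1 = 0
    · have h2 : v.2 ≠ 0 := fun h => hv (Prod.ext h1 h)
      refine ⟨x.2 / v.2, Finset.mem_univ _, ?_⟩
      have h3 : x.1 = 0 := by
        rw [h1, mul_zero, sub_zero] at h
        exact (mul_eq_zero.mp h).resolve_right h2
      ext
      · simp only; rw [h1, mul_zero, h3]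
      · simp only; rw [div_mul_cancel₀ _ h2]
    · refine ⟨x.1 / v.1, Finset.mem_univ _, ?_⟩
      ext
      · simp only; rw [div_mul_cancel₀ _ h1]
      · simp only
        rw [div_mul_eq_mul_div, div_eq_iff h1]
        linear_combination h

/-- If the subset sums of `F` meet every coset of the line and the nonzero elements of the line
are further elements of `A`, then `A` is full. -/
lemma full_of_line (A F : Finset (ZMod p × ZMod p)) (v : ZMod p × ZMod p) (hv : v ≠ 0)
    (hF : F ⊆ A) (hF0 : ∀ x ∈ F, dt x v ≠ 0) (hL : ∀ x, x ≠ 0 → dt x v = 0 → x ∈ A)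
    (hcov : ∀ t : ZMod p, ∃ B ⊆ F, ∑ b ∈ B, dt b v = t) : Full A := by
  classical
  intro g
  obtain ⟨B, hB, hs⟩ := hcov (dt g v)
  have h1 : dt (g - ∑ b ∈ B, b) v = 0 := by rw [dt_sub, dt_sum, hs, sub_self]
  by_cases h2 : g - ∑ b ∈ B, b = 0
  · exact ⟨B, hB.trans hF, (sub_eq_zero.mp h2).symm⟩
  · have h3 := hL _ h2 h1
    refine ⟨insert (g - ∑ b ∈ B, b) B, ?_, ?_⟩
    · intro x hx
      rw [Finset.mem_insert] at hx
      rcases hx with rfl | hx
      · exact h3
      · exact hF (hB hx)
    · rw [Finset.sum_insert]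
      · abel
      · intro h4
        exact hF0 _ (hB h4) h1

lemma line_sub {S : Finset (ZMod p × ZMod p)} (h0 : (0 : ZMod p × ZMod p) ∉ S)
    {v : ZMod p × ZMod p} (hv : v ≠ 0) (h : p - 1 ≤ lc S v) :
    ∀ x, x ≠ 0 → dt x v = 0 → x ∈ S := by
  classical
  intro x hx hxv
  have h1 : S.filter (fun s => dt s v = 0) ⊆ (lineF v).erase 0 := by
    intro y hy
    rw [Finset.mem_filter] at hy
    rw [Finset.mem_erase, mem_lineF hv]
    refine ⟨?_, hy.2⟩
    rintro rfl
    exact h0 hy.1
  have h2 : ((lineF v).erase 0).card = p - 1 := by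
    rw [Finset.card_erase_of_mem, card_lineF hv]
    rw [mem_lineF hv]; exact dt_zero v
  have h3 := Finset.eq_of_subset_of_card_le h1 (by rw [h2]; exact h)
  have h4 : x ∈ (lineF v).erase 0 := by
    rw [Finset.mem_erase, mem_lineF hv]
    exact ⟨hx, hxv⟩
  rw [← h3] at h4
  exact (Finset.mem_filter.mp h4).1

/-- coverage by many elements -/
lemma cover_many (F : Finset (ZMod p × ZMod p)) (v : ZMod p × ZMod p)
    (hF0 : ∀ x ∈ F, dt x v ≠ 0) (hcard : p - 1 ≤ F.card) (t : ZMod p) :
    ∃ B ⊆ F, ∑ b ∈ B, dt b v = t := by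
  classical
  obtain ⟨x, hx1, hx2⟩ := cd_choice F (fun i => ({0, dt i v} : Finset (ZMod p))) (fun _ => 1)
    (fun i hi => by
      rw [Finset.card_pair (hF0 i hi).symm]
      exact min_le_right _ _) (by rw [Finset.sum_const, smul_eq_mul, mul_one]; omega) t
  refine ⟨F.filter (fun i => x i ≠ 0), Finset.filter_subset _ _, ?_⟩
  rw [← hx2, Finset.sum_filter]
  refine Finset.sum_congr rfl fun i hi => ?_
  have h1 := hx1 i hi
  rw [Finset.mem_insert, Finset.mem_singleton] at h1
  rcases h1 with h1 | h1
  · simp [h1]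
  · rw [h1]; simp [hF0 i hi]

/-- coverage by `p - 2` elements not all in two opposite cosets -/
lemma cover_two (hp5 : 5 ≤ p) (F : Finset (ZMod p × ZMod p)) (v : ZMod p × ZMod p)
    (hF0 : ∀ x ∈ F, dt x v ≠ 0) (hcard : F.card = p - 2) (a x : ZMod p × ZMod p)
    (ha : a ∈ F) (hx : x ∈ F) (h1 : dt x v ≠ dt a v) (h2 : dt x v ≠ - dt a v) (t : ZMod p) :
    ∃ B ⊆ F, ∑ b ∈ B, dt b v = t := by
  classical
  have hxa : x ≠ a := fun h => h1 (by rw [h])
  have hprime := hp.out
  set I := (F.erase a).erase x with hI
  have hxI : x ∈ F.erase a := Finset.mem_erase.mpr ⟨hxa, hx⟩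
  have hIcard : I.card = p - 4 := by
    rw [hI, Finset.card_erase_of_mem hxI, Finset.card_erase_of_mem ha, hcard]; omega
  have hIF : ∀ i ∈ I, i ∈ F := fun i hi => Finset.mem_of_mem_erase (Finset.mem_of_mem_erase hi)
  obtain ⟨Y, hY1, hY2⟩ := cd_iter I (fun i => ({0, dt i v} : Finset (ZMod p))) (fun _ => 1)
    (fun i hi => by
      rw [Finset.card_pair (hF0 i (hIF i hi)).symm]
      exact min_le_right _ _)
  rw [Finset.sum_const, smul_eq_mul, mul_one, hIcard] at hY1
  have hY1' : p - 3 ≤ Y.card := by
    rw [min_eq_right (by omega)] at hY1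
    omega
  set Z : Finset (ZMod p) := {0, dt a v, dt x v, dt a v + dt x v} with hZ
  have ha0 := hF0 a ha
  have hx0 := hF0 x hx
  have hZcard : Z.card = 4 := by
    rw [hZ, Finset.card_insert_of_notMem, Finset.card_insert_of_notMem, Finset.card_pair]
    · intro h
      exact ha0 (by linear_combination -h)
    · rw [Finset.mem_insert, Finset.mem_singleton]
      rintro (h | h)
      · exact h1 h.symm
      · exact hx0 (by linear_combination -h)
    · rw [Finset.mem_insert, Finset.mem_insert, Finset.mem_singleton]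
      rintro (h | h | h)
      · exact ha0 h.symm
      · exact hx0 h.symm
      · exact h2 (by linear_combination -h)
  have hYne : Y.Nonempty := Finset.card_pos.mp (by omega)
  have hZne : Z.Nonempty := Finset.card_pos.mp (by omega)
  have hcd := ZMod.cauchy_davenport hprime hYne hZne
  have huniv : Y + Z = Finset.univ := by
    rw [← Finset.card_eq_iff_eq_univ, ZMod.card]
    apply le_antisymm
    · have := Finset.card_le_univ (Y + Z)
      rwa [ZMod.card] at this
    · refine le_trans ?_ hcd
      rw [hZcard]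
      rw [le_min_iff]
      omega
  have ht : t ∈ Y + Z := by rw [huniv]; exact Finset.mem_univ t
  rw [Finset.mem_add] at ht
  obtain ⟨y, hy, z, hz, rfl⟩ := ht
  obtain ⟨u, hu1, hu2⟩ := hY2 y hy
  have hBI : ∑ b ∈ I.filter (fun i => u i ≠ 0), dt b v = y := by
    rw [← hu2, Finset.sum_filter]
    refine Finset.sum_congr rfl fun i hi => ?_
    have h1 := hu1 i hi
    rw [Finset.mem_insert, Finset.mem_singleton] at h1
    rcases h1 with h1 | h1
    · simp [h1]
    · rw [h1]; simp [hF0 i (hIF i hi)]
  have haI : a ∉ I := by rw [hI, Finset.mem_erase, Finset.mem_erase]; tauto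
  have hxI' : x ∉ I := by rw [hI, Finset.mem_erase]; tauto
  have hBZ : ∃ C ⊆ ({a, x} : Finset (ZMod p × ZMod p)), ∑ b ∈ C, dt b v = z := by
    rw [hZ, Finset.mem_insert, Finset.mem_insert, Finset.mem_insert, Finset.mem_singleton] at hz
    rcases hz with rfl | rfl | rfl | rfl
    · exact ⟨∅, by simp, by simp⟩
    · exact ⟨{a}, by simp, by simp⟩
    · exact ⟨{x}, by simp, by simp⟩
    · exact ⟨{a, x}, by simp, by rw [Finset.sum_pair hxa.symm]⟩
  obtain ⟨C, hC1, hC2⟩ := hBZ
  refine ⟨I.filter (fun i => u i ≠ 0) ∪ C, ?_, ?_⟩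
  · intro b hb
    rw [Finset.mem_union] at hb
    rcases hb with hb | hb
    · exact hIF b (Finset.mem_filter.mp hb).1
    · have := hC1 hb
      rw [Finset.mem_insert, Finset.mem_singleton] at this
      rcases this with rfl | rfl
      · exact ha
      · exact hx
  · rw [Finset.sum_union, hBI, hC2]
    rw [Finset.disjoint_left]
    intro b hb hb'
    have h3 := (Finset.mem_filter.mp hb).1
    have := hC1 hb'
    rw [Finset.mem_insert, Finset.mem_singleton] at this
    rcases this with rfl | rfl
    · exact haI h3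
    · exact hxI' h3

/-- Coset type sets. -/
def CosetType (A : Finset (ZMod p × ZMod p)) : Prop :=
  ∃ (H : AddSubgroup (ZMod p × ZMod p)) (a : ZMod p × ZMod p), Nat.card H = p ∧ a ∉ H ∧
    (H : Set (ZMod p × ZMod p)) ⊆ (A : Set (ZMod p × ZMod p)) ∧
    ∀ x ∈ A, x ∈ H ∨ x - a ∈ H ∨ x + a ∈ H

/-- the line as a subgroup -/
def lineH (v : ZMod p × ZMod p) : AddSubgroup (ZMod p × ZMod p) where
  carrier := {x | dt x v = 0}
  add_mem' := by
    intro a b ha hb
    show dt (a + b) v = 0
    rw [dt_add, ha, hb, add_zero]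
  zero_mem' := dt_zero v
  neg_mem' := by
    intro a ha
    show dt (-a) v = 0
    have h : dt a v = 0 := ha
    unfold dt at *
    simp only [Prod.fst_neg, Prod.snd_neg]
    linear_combination -h

lemma mem_lineH {v x : ZMod p × ZMod p} : x ∈ lineH v ↔ dt x v = 0 := Iff.rfl

lemma card_lineH {v : ZMod p × ZMod p} (hv : v ≠ 0) : Nat.card (lineH v) = p := by
  have h : ((lineH v : AddSubgroup (ZMod p × ZMod p)) : Set (ZMod p × ZMod p))
      = ((lineF v : Finset (ZMod p × ZMod p)) : Set (ZMod p × ZMod p)) := by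
    ext x
    rw [Finset.mem_coe, mem_lineF hv]
    rfl
  calc Nat.card (lineH v) = Nat.card ((lineH v : AddSubgroup (ZMod p × ZMod p)) :
        Set (ZMod p × ZMod p)) := rfl
    _ = (lineF v).card := by rw [h, Nat.card_coe_set_eq, Set.ncard_coe_finset]
    _ = p := card_lineF hv

lemma card_filter_line {A : Finset (ZMod p × ZMod p)} {v : ZMod p × ZMod p} (hv : v ≠ 0)
    (hL : ∀ x, dt x v = 0 → x ∈ A) (hA : A.card = 2 * p - 2) :
    (A.filter (fun x => ¬ dt x v = 0)).card = p - 2 := by
  classical
  have h1 := Finset.card_filter_add_card_filter_not (s := A) (fun s => dt s v = 0)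
  have h2 : A.filter (fun s => dt s v = 0) = lineF v := by
    ext x
    rw [Finset.mem_filter, mem_lineF hv]
    exact ⟨fun h => h.2, fun h => ⟨hL x h, h⟩⟩
  rw [h2, card_lineF hv] at h1
  omega

lemma cosetType_of_line (hp5 : 5 ≤ p) (A : Finset (ZMod p × ZMod p)) (hA : A.card = 2 * p - 2)
    (v : ZMod p × ZMod p) (hv : v ≠ 0) (hL : ∀ x, dt x v = 0 → x ∈ A) (hnf : ¬ Full A) :
    CosetType A := by
  classical
  set F := A.filter (fun x => ¬ dt x v = 0) with hF
  have hFcard : F.card = p - 2 := card_filter_line hv hL hA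
  have hF0 : ∀ x ∈ F, dt x v ≠ 0 := fun x hx => (Finset.mem_filter.mp hx).2
  obtain ⟨a, ha⟩ : F.Nonempty := Finset.card_pos.mp (by omega)
  refine ⟨lineH v, a, card_lineH hv, hF0 a ha, fun x hx => hL x hx, ?_⟩
  intro x hx
  by_contra hcon
  push Not at hcon
  obtain ⟨h1, h2, h3⟩ := hcon
  rw [mem_lineH] at h1 h2 h3
  rw [dt_sub] at h2
  rw [dt_add] at h3
  apply hnf
  apply full_of_line A F v hv (Finset.filter_subset _ _) hF0 (fun x _ h => hL x h)
  exact cover_two hp5 F v hF0 hFcard a x ha (Finset.mem_filter.mpr ⟨hx, h1⟩)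
    (fun h => h2 (sub_eq_zero.mpr h)) (fun h => h3 (by rw [h]; ring))

lemma not_full_of_cosetType (hp5 : 5 ≤ p) (A : Finset (ZMod p × ZMod p))
    (hA : A.card = 2 * p - 2) (h : CosetType A) : ¬ Full A := by
  classical
  obtain ⟨H, a, hH, ha, hHA, hall⟩ := h
  have hprime := hp.out
  -- a nonzero element of H
  obtain ⟨v, hvH, hv⟩ : ∃ v ∈ H, v ≠ 0 := by
    by_contra hcon
    push Not at hcon
    have : H = ⊥ := by
      rw [AddSubgroup.eq_bot_iff_forall]
      exact hcon
    rw [this, AddSubgroup.card_bot] at hH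
    omega
  -- H is the line through v
  have hle : lineH v ≤ H := by
    intro x hx
    rw [mem_lineH, ← mem_lineF hv] at hx
    unfold lineF at hx
    rw [Finset.mem_image] at hx
    obtain ⟨c, _, rfl⟩ := hx
    have : (c * v.1, c * v.2) = c.val • v := by
      ext
      · simp
      · simp
    rw [this]
    exact H.nsmul_mem hvH _
  have hHv : lineH v = H := by
    apply AddSubgroup.eq_of_le_of_card_ge hle
    rw [card_lineH hv, hH]
  have hmemH : ∀ x, x ∈ H ↔ dt x v = 0 := fun x => by rw [← hHv]; exact mem_lineH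
  have hL : ∀ x, dt x v = 0 → x ∈ A := fun x hx => hHA ((hmemH x).mpr hx)
  have hd : dt a v ≠ 0 := fun h => ha ((hmemH a).mpr h)
  have hcard := card_filter_line hv hL hA
  set k := (A.filter (fun x => dt x v = dt a v)).card with hk
  set l := (A.filter (fun x => dt x v = - dt a v)).card with hl
  have hne2 : dt a v ≠ - dt a v := by
    intro h
    have h2 : (2 : ZMod p) * dt a v = 0 := by linear_combination h
    rcases mul_eq_zero.mp h2 with h3 | h3
    · have h4 : ((2 : ℕ) : ZMod p) = 0 := by exact_mod_cast h3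
      rw [ZMod.natCast_eq_zero_iff] at h4
      have := Nat.le_of_dvd (by norm_num) h4
      omega
    · exact hd h3
  have hkl : k + l = p - 2 := by
    rw [← hcard, hk, hl, ← Finset.card_union_of_disjoint]
    · congr 1
      ext x
      simp only [Finset.mem_union, Finset.mem_filter]
      constructor
      · rintro (⟨h1, h2⟩ | ⟨h1, h2⟩)
        · exact ⟨h1, by rw [h2]; exact hd⟩
        · exact ⟨h1, by rw [h2]; exact neg_ne_zero.mpr hd⟩
      · rintro ⟨h1, h2⟩
        rcases hall x h1 with h3 | h3 | h3
        · exact absurd ((hmemH x).mp h3) h2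
        · left
          have := (hmemH _).mp h3
          rw [dt_sub] at this
          exact ⟨h1, sub_eq_zero.mp this⟩
        · right
          have := (hmemH _).mp h3
          rw [dt_add] at this
          exact ⟨h1, eq_neg_of_add_eq_zero_left this⟩
    · rw [Finset.disjoint_left]
      intro x h1 h2
      rw [Finset.mem_filter] at h1 h2
      exact hne2 (h1.2.symm.trans h2.2)
  intro hfull
  obtain ⟨B, hB, hs⟩ := hfull ((k + 1) • a)
  have h1 : ∑ b ∈ B, dt b v = ((k + 1 : ℕ) : ZMod p) * dt a v := by
    rw [← dt_sum, hs, dt_nsmul]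
  set i := (B.filter (fun x => dt x v = dt a v)).card with hi
  set j := (B.filter (fun x => dt x v = - dt a v)).card with hj
  have h2 : ∑ b ∈ B, dt b v = (i : ZMod p) * dt a v - (j : ZMod p) * dt a v := by
    have h3 : ∀ b ∈ B, dt b v = (if dt b v = dt a v then dt a v else 0)
        - (if dt b v = - dt a v then dt a v else 0) := by
      intro b hb
      rcases hall b (hB hb) with h3 | h3 | h3
      · have h4 := (hmemH _).mp h3
        rw [h4, if_neg (fun h => hd h.symm), if_neg (fun h => hd (neg_eq_zero.mp h.symm)), sub_zero]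
      · have h4 := (hmemH _).mp h3
        rw [dt_sub] at h4
        rw [sub_eq_zero.mp h4, if_pos rfl, if_neg hne2, sub_zero]
      · have h4 := (hmemH _).mp h3
        rw [dt_add] at h4
        rw [eq_neg_of_add_eq_zero_left h4, if_pos rfl, if_neg (fun h => hne2 h.symm), zero_sub]
    rw [Finset.sum_congr rfl h3, Finset.sum_sub_distrib, ← Finset.sum_filter, ← Finset.sum_filter,
      Finset.sum_const, Finset.sum_const, nsmul_eq_mul, nsmul_eq_mul]
  have hik : i ≤ k := Finset.card_le_card (Finset.filter_subset_filter _ hB)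
  have hjl : j ≤ l := Finset.card_le_card (Finset.filter_subset_filter _ hB)
  have h5 : (((k + 1 + j - i : ℕ)) : ZMod p) * dt a v = 0 := by
    rw [Nat.cast_sub (by omega)]
    push_cast
    rw [h2] at h1
    push_cast at h1
    linear_combination -h1
  rcases mul_eq_zero.mp h5 with h6 | h6
  · rw [ZMod.natCast_eq_zero_iff] at h6
    have := Nat.le_of_dvd (by omega) h6
    omega
  · exact hd h6

lemma lc_mono {S T : Finset (ZMod p × ZMod p)} (h : S ⊆ T) (v : ZMod p × ZMod p) :
    lc S v ≤ lc T v := Finset.card_le_card (Finset.filter_subset_filter _ h)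

/-- If `A` misses `0`, and contains a punctured line, it is full. -/
lemma full_of_punctured (hp5 : 5 ≤ p) (A : Finset (ZMod p × ZMod p))
    (h0 : (0 : ZMod p × ZMod p) ∉ A) (hA : A.card = 2 * p - 2)
    (v : ZMod p × ZMod p) (hv : v ≠ 0) (hlc : p - 1 ≤ lc A v) : Full A := by
  classical
  have hL := line_sub h0 hv hlc
  have h1 := Finset.card_filter_add_card_filter_not (s := A) (fun s => dt s v = 0)
  have h2 : A.filter (fun s => dt s v = 0) ⊆ (lineF v).erase 0 := by
    intro y hy
    rw [Finset.mem_filter] at hy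
    rw [Finset.mem_erase, mem_lineF hv]
    refine ⟨?_, hy.2⟩
    rintro rfl
    exact h0 hy.1
  have h3 : ((lineF v).erase 0).card = p - 1 := by
    rw [Finset.card_erase_of_mem, card_lineF hv]
    rw [mem_lineF hv]; exact dt_zero v
  have h4 := Finset.card_le_card h2
  apply full_of_line A (A.filter (fun s => ¬ dt s v = 0)) v hv (Finset.filter_subset _ _)
    (fun x hx => (Finset.mem_filter.mp hx).2) hL
  exact cover_many _ v (fun x hx => (Finset.mem_filter.mp hx).2) (by omega)

/-- Theorem A for `p ≥ 11` in terms of `lc`. -/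
lemma thmA_big' (hp11 : 11 ≤ p) (S : Finset (ZMod p × ZMod p)) (h0 : (0 : ZMod p × ZMod p) ∉ S)
    (hcard : S.card = 2 * p - 3) (hline : ∀ v ≠ 0, lc S v ≤ p - 2) : Full S := by
  classical
  apply thmA_big hp11 S h0 hcard
  intro d
  cases d with
  | none =>
    refine le_trans (le_of_eq ?_) (hline (0, 1) (by intro h; exact one_ne_zero (Prod.mk.inj h).2))
    unfold lc
    congr 1
    apply Finset.filter_congr
    intro x _
    unfold dt
    simp [dirE]
  | some l =>
    refine le_trans (le_of_eq ?_) (hline (1, l) (by intro h; exact one_ne_zero (Prod.mk.inj h).1))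
    unfold lc
    congr 1
    apply Finset.filter_congr
    intro x _
    unfold dt
    simp only [dirE, AddEquiv.coe_mk, Equiv.coe_fn_mk, mul_one]
    constructor
    · intro h; linear_combination -h
    · intro h; linear_combination -h

end

/-- Theorem A for `p ≥ 7`. -/
theorem thmA {p : ℕ} [hp : Fact p.Prime] (hp7 : 7 ≤ p) (S : Finset (ZMod p × ZMod p))
    (h0 : (0 : ZMod p × ZMod p) ∉ S) (hcard : S.card = 2 * p - 3)
    (hline : ∀ v ≠ 0, lc S v ≤ p - 2) : Full S := by
  have hprime := hp.out
  have hcases : p = 7 ∨ 11 ≤ p := by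
    by_contra hcon
    push Not at hcon
    obtain ⟨h1, h2⟩ := hcon
    have : p = 8 ∨ p = 9 ∨ p = 10 := by omega
    rcases this with rfl | rfl | rfl <;> revert hprime <;> norm_num
  rcases hcases with h | h
  · subst h
    exact thmA_7 S h0 hcard hline
  · exact thmA_big' h S h0 hcard hline

/-- The sporadic condition. -/
def Sporadic {p : ℕ} (A : Finset (ZMod p × ZMod p)) : Prop :=
  p = 5 ∧ ∃ L ∈ exceptional, ∃ φ : (ZMod p × ZMod p) ≃+ (ZMod p × ZMod p),
    ∀ x, mu A x = mu ((toSet p L).image φ) x

lemma mu_zero_of_mem {p : ℕ} (A : Finset (ZMod p × ZMod p)) (h : (0 : ZMod p × ZMod p) ∈ A) :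
    mu A 0 = 1 := by
  unfold mu
  rw [Finset.card_eq_one]
  refine ⟨0, ?_⟩
  ext y
  simp only [neg_zero, or_self, Finset.mem_filter, Finset.mem_singleton]
  exact ⟨fun h' => h'.2, fun h' => ⟨h' ▸ h, h'⟩⟩

theorem main {p : ℕ} [hp : Fact p.Prime] (hp5 : 5 ≤ p) (A : Finset (ZMod p × ZMod p))
    (hA : A.card = 2 * p - 2) : ¬ Full A ↔ CosetType A ∨ Sporadic A := by
  classical
  have hprime := hp.out
  constructor
  · intro hnf
    by_cases h0 : (0 : ZMod p × ZMod p) ∈ A
    · set S := A.erase 0 with hS
      have h0S : (0 : ZMod p × ZMod p) ∉ S := Finset.notMem_erase _ _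
      have hScard : S.card = 2 * p - 3 := by
        rw [hS, Finset.card_erase_of_mem h0, hA]; omega
      have hnfS : ¬ Full S := fun h => hnf (full_mono (Finset.erase_subset _ _) h)
      by_cases hline : ∃ v, v ≠ 0 ∧ p - 1 ≤ lc S v
      · left
        obtain ⟨v, hv, hlc⟩ := hline
        have hL := line_sub h0S hv hlc
        apply cosetType_of_line hp5 A hA v hv _ hnf
        intro x hx
        by_cases hx0 : x = 0
        · rw [hx0]; exact h0
        · exact Finset.mem_of_mem_erase (hL x hx0 hx)
      · push Not at hline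
        have hline' : ∀ v ≠ 0, lc S v ≤ p - 2 := fun v hv => by
          have := hline v hv; omega
        rcases Nat.lt_or_ge p 7 with h7 | h7
        · have hp5' : p = 5 := by
            by_contra hcon
            have : p = 6 := by omega
            subst this
            revert hprime
            norm_num
          right
          subst hp5'
          obtain ⟨L, hL, φ, hφ⟩ := class5 S h0S hScard hline' hnfS
          refine ⟨rfl, L, hL, φ, ?_⟩
          intro x
          by_cases hx : x = 0
          · subst hx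
            rw [mu_zero_of_mem A h0, mu_zero_of_mem]
            rw [Finset.mem_image]
            exact ⟨0, exceptional_zero L hL, map_zero φ⟩
          · rw [← hφ x hx]
            unfold mu
            congr 1
            ext y
            simp only [Finset.mem_filter, hS, Finset.mem_erase]
            constructor
            · rintro ⟨h1, h2⟩
              refine ⟨⟨?_, h1⟩, h2⟩
              rintro rfl
              rcases h2 with h2 | h2
              · exact hx h2.symm
              · exact hx (neg_eq_zero.mp h2.symm)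
            · rintro ⟨⟨_, h1⟩, h2⟩
              exact ⟨h1, h2⟩
        · exact absurd (thmA h7 S h0S hScard hline') hnfS
    · exfalso
      by_cases hline : ∃ v, v ≠ 0 ∧ p - 1 ≤ lc A v
      · obtain ⟨v, hv, hlc⟩ := hline
        exact hnf (full_of_punctured hp5 A h0 hA v hv hlc)
      · push Not at hline
        rcases Nat.lt_or_ge p 7 with h7 | h7
        · have hp5' : p = 5 := by
            by_contra hcon
            have : p = 6 := by omega
            subst this
            revert hprime
            norm_num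
          subst hp5'
          exact hnf (full8 A h0 hA)
        · obtain ⟨S, hSA, hScard⟩ := Finset.exists_subset_card_eq (show 2 * p - 3 ≤ A.card by omega)
          exact hnf (full_mono hSA (thmA h7 S (fun h => h0 (hSA h)) hScard (fun v hv => by
            have h1 := hline v hv
            have h2 := lc_mono hSA v
            omega)))
  · rintro (h | h)
    · exact not_full_of_cosetType hp5 A hA h
    · obtain ⟨h5, L, hL, φ, hφ⟩ := h
      subst h5
      intro hfull
      rw [full_congr A ((toSet 5 L).image φ) _ reps5 (fun r _ => hφ r), full_image_iff] at hfull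
      exact exceptional_not_full L hL hfull

end Pool.Agent.MP7e2af8
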