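import Pool.Agent.Lib_MP_7e2af8_co.Sums
import Pool.Agent.Lib_MP_7e2af8_co.ChooseW

/-! A direction with large `Q` gives all subset sums (primes `p ≥ 11`). -/

namespace Pool.Agent.MP7e2af8

open Finset

variable {p : ℕ} [hp : Fact p.Prime]

lemma sum_fib_card (S : Finset (ZMod p × ZMod p)) : ∑ c, (fib S c).card = S.card := by
  classical
  have := Finset.card_eq_sum_card_fiberwise (s := S) (t := (Finset.univ : Finset (ZMod p)))
    (f := Prod.fst) (by intro x _; simp)
  rw [this]
  exact Finset.sum_congr rfl fun c _ => fib_card S c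

lemma linear_coverage (U : Finset (ZMod p)) (w : ZMod p → ℕ) (T : ℕ) (hT : T ≤ ∑ c ∈ U, w c) :
    T ≤ ∑ i ∈ Finset.range (∑ c ∈ U, w c), (((U.filter (fun c => i + 1 ≤ w c)).card + 1) ^ 2 / 4) := by
  classical
  set W := ∑ c ∈ U, w c with hW
  have h1 : ∀ l : ℕ, l ≤ (l + 1) ^ 2 / 4 := by
    intro l
    have : 4 * l ≤ (l + 1) ^ 2 := by nlinarith [sq_nonneg ((l : ℤ) - 1)]
    omega
  have h2 : ∑ i ∈ Finset.range W, (U.filter (fun c => i + 1 ≤ w c)).card = W := by
    have e1 : ∀ i, (U.filter (fun c => i + 1 ≤ w c)).card = ∑ c ∈ U, if i + 1 ≤ w c then 1 else 0 := by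
      intro i
      rw [Finset.card_filter]
    simp only [e1]
    rw [Finset.sum_comm]
    nth_rewrite 2 [hW]
    refine Finset.sum_congr rfl fun c hc => ?_
    rw [← Finset.card_filter]
    have : (Finset.range W).filter (fun i => i + 1 ≤ w c) = Finset.range (w c) := by
      ext i
      rw [Finset.mem_filter, Finset.mem_range, Finset.mem_range]
      have : w c ≤ W := Finset.single_le_sum (f := w) (fun _ _ => Nat.zero_le _) hc
      omega
    rw [this, Finset.card_range]
  calc T ≤ W := hT
    _ = ∑ i ∈ Finset.range W, (U.filter (fun c => i + 1 ≤ w c)).card := h2.symm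
    _ ≤ _ := Finset.sum_le_sum fun i _ => h1 _

lemma sq_mod (n : ℕ) : n ^ 2 = (if n % 2 = 1 then 1 else 0) + 4 * (n ^ 2 / 4) := by
  rcases Nat.even_or_odd' n with ⟨c, rfl | rfl⟩
  · have h1 : (2 * c) ^ 2 = 4 * (c * c) := by ring
    have h2 : ¬ (2 * c) % 2 = 1 := by omega
    rw [if_neg h2, h1]; omega
  · have h1 : (2 * c + 1) ^ 2 = 4 * (c * c + c) + 1 := by ring
    have h2 : (2 * c + 1) % 2 = 1 := by omega
    rw [if_pos h2, h1]; omega

lemma numeric_all {p o e X : ℕ} (hc : p = 11 ∨ p = 13 ∨ 17 ≤ p) (h1 : p - 1 ≤ 2 * (o + e))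
    (hne : p = 11 → o = 5 → e ≠ 0) (h0 : o = 0 → X % 2 = 0)
    (hQ : (2 * p - 3) * (3 * p - 1) ≤ (p + 1) * (o + 4 * X)) (ho : o ≤ p - 1) :
    ∃ k, k ≤ e ∧ p - 1 + k ≤ X ∧ p ≤ (o + k + 1) ^ 2 / 4 + (k + 1) ^ 2 / 4 + 1 := by
  rcases hc with rfl | rfl | h
  · exact numeric_11 (by omega) (fun h' => hne rfl h'.1 h'.2) h0 (by simpa using hQ) (by omega)
  · exact numeric_13 (by omega) (by simpa using hQ) (by omega)
  · exact numeric_big h h1 hQ ho

theorem full_of_Q (hp11 : 11 ≤ p) (S : Finset (ZMod p × ZMod p)) (h0 : (0, 0) ∉ S)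
    (hcard : S.card = 2 * p - 3) (hn0 : (fib S 0).card ≤ p - 2)
    (hQ : (2 * p - 3) * (3 * p - 1) ≤ (p + 1) *
      (∑ c ∈ Finset.univ.erase (0 : ZMod p), (fib S c).card ^ 2
        + 4 * (((fib S 0).card + 1) ^ 2 / 4))) (g : ZMod p × ZMod p) :
    ∃ B ⊆ S, ∑ b ∈ B, b = g := by
  classical
  have hprime := hp.out
  have hodd : p % 2 = 1 := by
    rcases hprime.eq_two_or_odd with h | h
    · omega
    · exact h
  set U := Finset.univ.erase (0 : ZMod p) with hUdef
  have hUcard : U.card = p - 1 := by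
    rw [hUdef, Finset.card_erase_of_mem (Finset.mem_univ _), Finset.card_univ, ZMod.card]
  set n : ZMod p → ℕ := fun c => (fib S c).card with hn
  have hsum : ∑ c ∈ U, n c + n 0 = 2 * p - 3 := by
    rw [hUdef, Finset.sum_erase_add _ _ (Finset.mem_univ _), ← hcard]
    exact sum_fib_card S
  set m := (U.filter (fun c => 1 ≤ n c)).card with hm
  set O := U.filter (fun c => n c % 2 = 1) with hO
  set E := U.filter (fun c => n c % 2 = 0 ∧ 1 ≤ n c) with hE
  have hmOE : m = O.card + E.card := by
    rw [hm, hO, hE, ← Finset.card_union_of_disjoint]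
    · congr 1
      ext c
      simp only [Finset.mem_filter, Finset.mem_union]
      constructor
      · rintro ⟨h1, h2⟩
        rcases Nat.mod_two_eq_zero_or_one (n c) with h | h
        · exact Or.inr ⟨h1, h, h2⟩
        · exact Or.inl ⟨h1, h⟩
      · rintro (⟨h1, h2⟩ | ⟨h1, h2, h3⟩)
        · exact ⟨h1, by omega⟩
        · exact ⟨h1, h3⟩
    · rw [Finset.disjoint_left]
      intro c h1 h2
      rw [Finset.mem_filter] at h1 h2
      omega
  have hOle : O.card ≤ p - 1 := by
    rw [← hUcard]; exact Finset.card_le_card (Finset.filter_subset _ _)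
  by_cases hA : 2 * m ≤ p - 2 ∨ (p = 11 ∧ m = 5 ∧ ∀ c ∈ U, 1 ≤ n c → n c % 2 = 1)
  · obtain ⟨w, hw1, hw2, hw3, hw4⟩ := exchange U n p (n 0) hp11 hodd hUcard.le hsum hn0 hA
    refine criterion S h0 w (∑ c ∈ U, w c) hw1 (fun c _ => hw2 c) ?_ hw4 g
    have hlc := linear_coverage U w (p - 1) hw3
    rw [← hUdef]
    omega
  · have hA1 : ¬ 2 * m ≤ p - 2 := fun h => hA (Or.inl h)
    have hA2 : p = 11 → O.card = 5 → E.card ≠ 0 := by
      intro h1 h2 h3
      apply hA
      right
      refine ⟨h1, by omega, ?_⟩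
      intro c hc1 hc2
      by_contra hcon
      have : c ∈ E := by
        rw [hE, Finset.mem_filter]
        exact ⟨hc1, by omega, hc2⟩
      rw [Finset.card_eq_zero.mp h3] at this
      simp at this
    clear hA
    set X := ∑ c ∈ U, n c ^ 2 / 4 + (n 0 + 1) ^ 2 / 4 with hX
    have hsq : ∑ c ∈ U, n c ^ 2 = O.card + 4 * ∑ c ∈ U, n c ^ 2 / 4 := by
      rw [hO, Finset.card_filter, Finset.mul_sum, ← Finset.sum_add_distrib]
      exact Finset.sum_congr rfl fun c _ => sq_mod (n c)
    have hQ' : (2 * p - 3) * (3 * p - 1) ≤ (p + 1) * (O.card + 4 * X) := by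
      have : ∑ c ∈ U, n c ^ 2 + 4 * ((n 0 + 1) ^ 2 / 4) = O.card + 4 * X := by
        rw [hsq, hX]; ring
      rw [← this]
      exact hQ
    have hpar : O.card = 0 → X % 2 = 0 := by
      intro hO0
      have hev : ∀ c ∈ U, n c % 2 = 0 := by
        intro c hc
        by_contra hcon
        have : c ∈ O := by rw [hO, Finset.mem_filter]; exact ⟨hc, by omega⟩
        rw [Finset.card_eq_zero.mp hO0] at this
        simp at this
      have h1 : ∀ c ∈ U, n c ^ 2 / 4 = (n c / 2) * (n c / 2) := by
        intro c hc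
        have h2 := hev c hc
        obtain ⟨d, hd⟩ : ∃ d, n c = 2 * d := ⟨n c / 2, by omega⟩
        rw [hd]
        have h3 : (2 * d) ^ 2 = 4 * (d * d) := by ring
        have h4 : 2 * d / 2 = d := by omega
        rw [h3, h4]; omega
      have h2 : ∑ c ∈ U, n c = 2 * ∑ c ∈ U, n c / 2 := by
        rw [Finset.mul_sum]
        exact Finset.sum_congr rfl fun c hc => by have := hev c hc; omega
      have h3 : (∑ c ∈ U, n c ^ 2 / 4) % 2 = (∑ c ∈ U, n c / 2) % 2 := by
        rw [Finset.sum_congr rfl h1, Finset.sum_nat_mod, Finset.sum_nat_mod U 2 (fun c => n c / 2)]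
        congr 1
        refine Finset.sum_congr rfl fun c _ => ?_
        rcases Nat.mod_two_eq_zero_or_one (n c / 2) with h | h
        · rw [Nat.mul_mod, h]
        · rw [Nat.mul_mod, h]
      rw [hX]
      obtain ⟨a, ha⟩ : ∃ a, n 0 = 2 * a + 1 := ⟨(n 0 - 1) / 2, by omega⟩
      have h4 : (n 0 + 1) ^ 2 / 4 = a * a + 2 * a + 1 := by
        have : (n 0 + 1) ^ 2 = 4 * (a * a + 2 * a + 1) := by rw [ha]; ring
        rw [this]; omega
      rw [h4]
      have h5 : (a * a) % 2 = a % 2 := by
        rcases Nat.mod_two_eq_zero_or_one a with h | h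
        · rw [Nat.mul_mod, h]
        · rw [Nat.mul_mod, h]
      omega
    have hnum : ∃ k, k ≤ E.card ∧ p - 1 + k ≤ X ∧
        p ≤ (O.card + k + 1) ^ 2 / 4 + (k + 1) ^ 2 / 4 + 1 := by
      have hcases : p = 11 ∨ p = 13 ∨ 17 ≤ p := by
        by_contra hcon
        push Not at hcon
        obtain ⟨h1, h2, h3⟩ := hcon
        have : p = 15 := by omega
        rw [this] at hprime
        revert hprime
        norm_num
      exact numeric_all hcases (by omega) hA2 hpar hQ' hOle
    obtain ⟨k, hk1, hk2, hk3⟩ := hnum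
    obtain ⟨E', hE'1, hE'2⟩ := Finset.exists_subset_card_eq hk1
    let w : ZMod p → ℕ := fun c => if c ∈ O then 1 else if c ∈ E' then 2 else 0
    have hOE : Disjoint O E' := by
      rw [Finset.disjoint_left]
      intro c h1 h2
      have h3 := hE'1 h2
      rw [hO, Finset.mem_filter] at h1
      rw [hE, Finset.mem_filter] at h3
      omega
    have hwO : ∀ c ∈ O, w c = 1 := fun c hc => by simp [w, hc]
    have hwE : ∀ c ∈ E', w c = 2 := fun c hc => by
      have : c ∉ O := fun h => (Finset.disjoint_left.mp hOE) h hc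
      simp [w, hc, this]
    have hwZ : ∀ c, c ∉ O → c ∉ E' → w c = 0 := fun c h1 h2 => by simp [w, h1, h2]
    refine criterion S h0 w 2 ?_ ?_ ?_ ?_ g
    · intro c
      by_cases h1 : c ∈ O
      · rw [hwO c h1]
        rw [hO, Finset.mem_filter] at h1
        have : n c = (fib S c).card := rfl
        omega
      · by_cases h2 : c ∈ E'
        · rw [hwE c h2]
          have h3 := hE'1 h2
          rw [hE, Finset.mem_filter] at h3
          have : n c = (fib S c).card := rfl
          omega
        · rw [hwZ c h1 h2]; exact Nat.zero_le _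
    · intro c hc
      have hcn : n c = (fib S c).card := rfl
      rw [← hcn]
      by_cases h1 : c ∈ O
      · rw [hwO c h1]
        rw [hO, Finset.mem_filter] at h1
        omega
      · by_cases h2 : c ∈ E'
        · rw [hwE c h2]
          have h3 := hE'1 h2
          rw [hE, Finset.mem_filter] at h3
          omega
        · rw [hwZ c h1 h2]
          have h3 : c ∈ U := by rw [hUdef, Finset.mem_erase]; exact ⟨hc, Finset.mem_univ _⟩
          have h4 : ¬ n c % 2 = 1 := fun h => h1 (by rw [hO, Finset.mem_filter]; exact ⟨h3, h⟩)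
          omega
    · rw [Finset.sum_range_succ, Finset.sum_range_one]
      have c1 : (U.filter (fun c => 0 + 1 ≤ w c)) = O ∪ E' := by
        ext c
        rw [Finset.mem_filter, Finset.mem_union]
        constructor
        · rintro ⟨_, h2⟩
          by_contra hcon
          push Not at hcon
          rw [hwZ c hcon.1 hcon.2] at h2
          omega
        · rintro (h | h)
          · exact ⟨(Finset.mem_filter.mp h).1, by rw [hwO c h]⟩
          · exact ⟨(Finset.mem_filter.mp (hE'1 h)).1, by rw [hwE c h]; omega⟩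
      have c2 : (U.filter (fun c => 1 + 1 ≤ w c)) = E' := by
        ext c
        rw [Finset.mem_filter]
        constructor
        · rintro ⟨_, h2⟩
          by_contra hcon
          by_cases h3 : c ∈ O
          · rw [hwO c h3] at h2; omega
          · rw [hwZ c h3 hcon] at h2; omega
        · intro h
          exact ⟨(Finset.mem_filter.mp (hE'1 h)).1, by rw [hwE c h]⟩
      rw [c1, c2, Finset.card_union_of_disjoint hOE, hE'2]
      exact hk3
    · have c3 : ∑ c ∈ U, w c ^ 2 = O.card + 4 * k := by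
        have d1 : ∑ c ∈ U, w c ^ 2 = ∑ c ∈ O ∪ E', w c ^ 2 := by
          symm
          apply Finset.sum_subset
          · intro c hc
            rw [Finset.mem_union] at hc
            rcases hc with h | h
            · exact (Finset.mem_filter.mp h).1
            · exact (Finset.mem_filter.mp (hE'1 h)).1
          · intro c _ hc
            rw [Finset.mem_union] at hc
            push Not at hc
            rw [hwZ c hc.1 hc.2]
            norm_num
        rw [d1, Finset.sum_union hOE]
        have d2 : ∑ c ∈ O, w c ^ 2 = O.card := by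
          rw [Finset.sum_congr rfl (fun c hc => by rw [hwO c hc])]
          simp
        have d3 : ∑ c ∈ E', w c ^ 2 = 4 * k := by
          rw [Finset.sum_congr rfl (fun c hc => by rw [hwE c hc])]
          simp [hE'2]
          ring
        rw [d2, d3]
      rw [c3]
      have c4 : ∑ c ∈ U, (fib S c).card ^ 2 = O.card + 4 * ∑ c ∈ U, n c ^ 2 / 4 := hsq
      have c5 : (((fib S 0).card + 1) ^ 2 / 4) = (n 0 + 1) ^ 2 / 4 := rfl
      rw [c4, c5]
      omega

end Pool.Agent.MP7e2af8
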