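import Pool.Agent.Lib_MP_7e2af8_co.Norm

/-! Links between multiplicities, lines and lists of entries. -/

namespace Pool.Agent.MP7e2af8

open Finset

variable {p : ℕ}

/-- indicator sum used in finite checks -/
def ind (p : ℕ) (L : List Ent) (z : ZMod p × ZMod p) : ℕ :=
  (L.map (fun e => if z = e.el p ∨ z = -(e.el p) then 1 else 0)).sum

lemma tot_eq_sum (S : Finset (ZMod p × ZMod p)) (L : List Ent) :
    tot p (mu S) L = ∑ z ∈ S, ind p L z := by
  induction L with
  | nil => simp [ind]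
  | cons e L ih =>
    have : ∀ z, ind p (e :: L) z = (if z = e.el p ∨ z = -(e.el p) then 1 else 0) + ind p L z := by
      intro z; simp [ind]
    rw [tot_cons, ih]
    simp only [this]
    rw [Finset.sum_add_distrib]
    congr 1
    unfold mu
    rw [Finset.card_filter]

lemma tot_eq_lc (S : Finset (ZMod p × ZMod p)) (h0 : (0 : ZMod p × ZMod p) ∉ S) (L : List Ent)
    (v : ZMod p × ZMod p) (hL : ∀ z : ZMod p × ZMod p, z ≠ 0 → ind p L z = if dt z v = 0 then 1 else 0) :
    tot p (mu S) L = lc S v := by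
  rw [tot_eq_sum]
  unfold lc
  rw [Finset.card_filter]
  refine Finset.sum_congr rfl fun z hz => hL z ?_
  rintro rfl
  exact h0 hz

lemma tot_eq_card (S : Finset (ZMod p × ZMod p)) (h0 : (0 : ZMod p × ZMod p) ∉ S) (L : List Ent)
    (hL : ∀ z : ZMod p × ZMod p, z ≠ 0 → ind p L z = 1) :
    tot p (mu S) L = S.card := by
  rw [tot_eq_sum, Finset.card_eq_sum_ones]
  refine Finset.sum_congr rfl fun z hz => hL z ?_
  rintro rfl
  exact h0 hz

lemma one_le_mu (S : Finset (ZMod p × ZMod p)) (x : ZMod p × ZMod p) (hx : x ∈ S) :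
    1 ≤ mu S x := by
  unfold mu
  rw [Nat.one_le_iff_ne_zero, ← Nat.pos_iff_ne_zero, Finset.card_pos]
  exact ⟨x, Finset.mem_filter.mpr ⟨hx, Or.inl rfl⟩⟩

end Pool.Agent.MP7e2af8
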