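import Pool.Agent.Lib_MP_7e2af8_co.TSums

/-! Normalisation by a linear automorphism. -/

namespace Pool.Agent.MP7e2af8

open Finset

variable {p : ℕ}

/-- Determinant. -/
def dt (x y : ZMod p × ZMod p) : ZMod p := x.1 * y.2 - x.2 * y.1

/-- Number of elements of `S` on the line through `0` and `v`. -/
def lc (S : Finset (ZMod p × ZMod p)) (v : ZMod p × ZMod p) : ℕ :=
  (S.filter (fun s => dt s v = 0)).card

variable [hp : Fact p.Prime]

lemma dt_parallel {x y z : ZMod p × ZMod p} (hx : x ≠ 0) (hy : y ≠ 0) (hxy : dt x y = 0) :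
    dt z x = 0 ↔ dt z y = 0 := by
  have key : ∀ {x y : ZMod p × ZMod p}, x ≠ 0 → dt x y = 0 → dt z x = 0 → dt z y = 0 := by
    intro x y hx hxy hzx
    unfold dt at *
    have h1 : x.1 * (z.1 * y.2 - z.2 * y.1) = 0 := by
      linear_combination z.1 * hxy + y.1 * hzx
    have h2 : x.2 * (z.1 * y.2 - z.2 * y.1) = 0 := by
      linear_combination z.2 * hxy + y.2 * hzx
    by_cases h3 : x.1 = 0
    · have h4 : x.2 ≠ 0 := fun h => hx (Prod.ext h3 h)
      exact (mul_eq_zero.mp h2).resolve_left h4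
    · exact (mul_eq_zero.mp h1).resolve_left h3
  refine ⟨key hx hxy, key hy ?_⟩
  unfold dt at *
  linear_combination -hxy

/-- The automorphism sending `v0`, `v1` to the standard basis. -/
def basisE (v0 v1 : ZMod p × ZMod p) (hD : dt v0 v1 ≠ 0) :
    (ZMod p × ZMod p) ≃+ (ZMod p × ZMod p) where
  toFun x := (dt x v1 / dt v0 v1, dt v0 x / dt v0 v1)
  invFun y := (y.1 * v0.1 + y.2 * v1.1, y.1 * v0.2 + y.2 * v1.2)
  left_inv x := by
    ext
    · simp only
      rw [div_mul_eq_mul_div, div_mul_eq_mul_div, ← add_div, div_eq_iff hD]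
      unfold dt; ring
    · simp only
      rw [div_mul_eq_mul_div, div_mul_eq_mul_div, ← add_div, div_eq_iff hD]
      unfold dt; ring
  right_inv y := by
    ext
    · simp only
      rw [div_eq_iff hD]
      unfold dt; ring
    · simp only
      rw [div_eq_iff hD]
      unfold dt; ring
  map_add' x y := by
    ext
    · simp only [Prod.fst_add]
      rw [← add_div]
      congr 1
      unfold dt; simp only [Prod.fst_add, Prod.snd_add]; ring
    · simp only [Prod.snd_add]
      rw [← add_div]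
      congr 1
      unfold dt; simp only [Prod.fst_add, Prod.snd_add]; ring

lemma basisE_v0 (v0 v1 : ZMod p × ZMod p) (hD : dt v0 v1 ≠ 0) : basisE v0 v1 hD v0 = (1, 0) := by
  show (dt v0 v1 / dt v0 v1, dt v0 v0 / dt v0 v1) = (1, 0)
  rw [div_self hD]
  have : dt v0 v0 = 0 := by unfold dt; ring
  rw [this, zero_div]

lemma basisE_v1 (v0 v1 : ZMod p × ZMod p) (hD : dt v0 v1 ≠ 0) : basisE v0 v1 hD v1 = (0, 1) := by
  show (dt v1 v1 / dt v0 v1, dt v0 v1 / dt v0 v1) = (0, 1)
  rw [div_self hD]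
  have : dt v1 v1 = 0 := by unfold dt; ring
  rw [this, zero_div]

lemma dt_basisE (v0 v1 : ZMod p × ZMod p) (hD : dt v0 v1 ≠ 0) (x y : ZMod p × ZMod p) :
    dt (basisE v0 v1 hD x) (basisE v0 v1 hD y) = dt x y / dt v0 v1 := by
  show (dt x v1 / dt v0 v1) * (dt v0 y / dt v0 v1) - (dt v0 x / dt v0 v1) * (dt y v1 / dt v0 v1) = _
  field_simp
  unfold dt; ring

lemma dt_basisE_zero (v0 v1 : ZMod p × ZMod p) (hD : dt v0 v1 ≠ 0) (x y : ZMod p × ZMod p) :
    dt (basisE v0 v1 hD x) (basisE v0 v1 hD y) = 0 ↔ dt x y = 0 := by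
  rw [dt_basisE, div_eq_zero_iff]
  exact ⟨fun h => h.resolve_right hD, fun h => Or.inl h⟩

lemma lc_basisE (v0 v1 : ZMod p × ZMod p) (hD : dt v0 v1 ≠ 0) (S : Finset (ZMod p × ZMod p))
    (v : ZMod p × ZMod p) :
    lc (S.image (basisE v0 v1 hD)) (basisE v0 v1 hD v) = lc S v := by
  classical
  unfold lc
  rw [Finset.filter_image, Finset.card_image_of_injective _ (basisE v0 v1 hD).injective]
  simp only [dt_basisE_zero]

lemma normalize (S : Finset (ZMod p × ZMod p)) (cap : ℕ) (h0 : (0 : ZMod p × ZMod p) ∉ S)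
    (hcap : ∀ v ≠ 0, lc S v ≤ cap) (hcard : cap < S.card) :
    ∃ e : (ZMod p × ZMod p) ≃+ (ZMod p × ZMod p),
      ((1, 0) : ZMod p × ZMod p) ∈ S.image e ∧ ((0, 1) : ZMod p × ZMod p) ∈ S.image e ∧
      lc (S.image e) (1, 0) ≤ cap ∧ lc (S.image e) (0, 1) ≤ lc (S.image e) (1, 0) ∧
      ∀ v : ZMod p × ZMod p, v.2 ≠ 0 → lc (S.image e) v ≤ lc (S.image e) (0, 1) := by
  classical
  have hne : S.Nonempty := Finset.card_pos.mp (by omega)
  obtain ⟨v0, hv0, hmax0⟩ := Finset.exists_max_image S (lc S) hne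
  have hv0ne : v0 ≠ 0 := fun h => h0 (h ▸ hv0)
  have hne1 : (S.filter (fun s => dt s v0 ≠ 0)).Nonempty := by
    rw [← Finset.card_pos]
    have h1 := Finset.card_filter_add_card_filter_not (s := S) (fun s => dt s v0 = 0)
    have h2 := hcap v0 hv0ne
    unfold lc at h2
    simp only [ne_eq]
    omega
  obtain ⟨v1, hv1, hmax1⟩ := Finset.exists_max_image _ (lc S) hne1
  rw [Finset.mem_filter] at hv1
  obtain ⟨hv1S, hv1d⟩ := hv1
  have hD : dt v0 v1 ≠ 0 := by
    intro h
    apply hv1d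
    unfold dt at *
    linear_combination -h
  refine ⟨basisE v0 v1 hD, ?_, ?_, ?_, ?_, ?_⟩
  · rw [← basisE_v0 v0 v1 hD]; exact Finset.mem_image_of_mem _ hv0
  · rw [← basisE_v1 v0 v1 hD]; exact Finset.mem_image_of_mem _ hv1S
  · rw [← basisE_v0 v0 v1 hD, lc_basisE]; exact hcap v0 hv0ne
  · rw [← basisE_v0 v0 v1 hD, ← basisE_v1 v0 v1 hD, lc_basisE, lc_basisE]; exact hmax0 v1 hv1S
  · intro v hv
    rw [← basisE_v1 v0 v1 hD, lc_basisE]
    rcases Nat.eq_zero_or_pos (lc (S.image (basisE v0 v1 hD)) v) with h | h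
    · rw [h]; exact Nat.zero_le _
    · unfold lc at h
      obtain ⟨s', hs'⟩ := Finset.card_pos.mp h
      rw [Finset.mem_filter, Finset.mem_image] at hs'
      obtain ⟨⟨s, hs, rfl⟩, hsv⟩ := hs'
      have hs0 : s ≠ 0 := fun h => h0 (h ▸ hs)
      have hes0 : basisE v0 v1 hD s ≠ 0 := by
        intro h
        exact hs0 ((basisE v0 v1 hD).injective (by rw [h, map_zero]))
      have hvne : v ≠ 0 := by
        rintro rfl
        exact hv rfl
      have h1 : lc (S.image (basisE v0 v1 hD)) v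
          = lc (S.image (basisE v0 v1 hD)) (basisE v0 v1 hD s) := by
        unfold lc
        congr 1
        apply Finset.filter_congr
        intro z _
        exact (dt_parallel hes0 hvne hsv).symm
      rw [h1, lc_basisE]
      apply hmax1
      rw [Finset.mem_filter]
      refine ⟨hs, ?_⟩
      intro hsv0
      apply hv
      have h2 : dt (basisE v0 v1 hD s) (basisE v0 v1 hD v0) = 0 :=
        (dt_basisE_zero v0 v1 hD s v0).mpr hsv0
      rw [basisE_v0] at h2
      have h3 := (dt_parallel (z := (1, 0)) hes0 hvne hsv).mp (by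
        unfold dt at h2 ⊢
        linear_combination -h2)
      unfold dt at h3
      simpa using h3

lemma full_image' (S : Finset (ZMod p × ZMod p)) (e : (ZMod p × ZMod p) ≃+ (ZMod p × ZMod p)) :
    Full (S.image e) ↔ Full S := full_image_iff e S

end Pool.Agent.MP7e2af8
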