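import Pool.Agent.Lib_MP_7e2af8_co.Link

/-! The case `p = 5`. -/

namespace Pool.Agent.MP7e2af8

open Finset

def F5 : ℕ := 33554431

def e0_5 : Ent := ⟨1, 0, 5, 20, 5, 33554431, 0⟩

def es0_5 : List Ent := [⟨2, 0, 10, 15, 5, 33554431, 0⟩]

def e1_5 : Ent := ⟨0, 1, 0, 25, 4, 16236015, 17318416⟩

def es1_5 : List Ent := [⟨0, 2, 0, 25, 3, 7576807, 25977624⟩]

def Ls_5 : List (List Ent) := [
  [⟨1, 1, 5, 20, 4, 16236015, 17318416⟩, ⟨2, 2, 10, 15, 3, 7576807, 25977624⟩],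
  [⟨1, 2, 5, 20, 3, 7576807, 25977624⟩, ⟨2, 4, 10, 15, 1, 1082401, 32472030⟩],
  [⟨1, 3, 5, 20, 2, 3247203, 30307228⟩, ⟨2, 1, 10, 15, 4, 16236015, 17318416⟩],
  [⟨1, 4, 5, 20, 1, 1082401, 32472030⟩, ⟨2, 3, 10, 15, 2, 3247203, 30307228⟩]]

lemma fact_prime_five : Fact (Nat.Prime 5) := ⟨by norm_num⟩

attribute [local instance] fact_prime_five

/-- The seven exceptional sets for `p = 5` (natural number coordinates, read modulo `5`). -/
def exceptional : List (List (ℕ × ℕ)) := [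
  [(0, 0), (1, 0), (4, 0), (0, 1), (1, 1), (1, 4), (2, 1), (2, 4)],
  [(0, 0), (1, 0), (2, 0), (0, 1), (1, 1), (1, 4), (2, 1), (2, 4)],
  [(0, 0), (1, 0), (4, 0), (1, 1), (4, 4), (0, 1), (1, 4), (2, 4)],
  [(0, 0), (1, 0), (4, 0), (1, 1), (4, 4), (1, 4), (4, 1), (0, 1)],
  [(0, 0), (1, 0), (4, 0), (0, 1), (0, 4), (1, 1), (4, 4), (2, 4)],
  [(0, 0), (1, 0), (2, 0), (0, 1), (1, 1), (4, 4), (1, 4), (4, 1)],
  [(0, 0), (1, 0), (4, 0), (0, 1), (0, 4), (1, 1), (4, 4), (1, 4)]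
]

/-- Reduction modulo `p` of a list of vectors with natural number coordinates. -/
def toSet (p : ℕ) (L : List (ℕ × ℕ)) : Finset (ZMod p × ZMod p) :=
  (L.map (fun x => ((x.1 : ZMod p), (x.2 : ZMod p)))).toFinset

/-- Certificate: code, exceptional set, images of the two basis vectors. -/
def certs : List (ℕ × List (ℕ × ℕ) × (ZMod 5 × ZMod 5) × (ZMod 5 × ZMod 5)) := [
  (258159, [(0, 0), (1, 0), (2, 0), (0, 1), (1, 1), (1, 4), (2, 1), (2, 4)], (1, 0), (0, 1)),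
  (275577, [(0, 0), (1, 0), (2, 0), (0, 1), (1, 1), (4, 4), (1, 4), (4, 1)], (2, 0), (2, 1)),
  (275727, [(0, 0), (1, 0), (2, 0), (0, 1), (1, 1), (4, 4), (1, 4), (4, 1)], (1, 0), (1, 4)),
  (277767, [(0, 0), (1, 0), (2, 0), (0, 1), (1, 1), (4, 4), (1, 4), (4, 1)], (1, 0), (1, 1)),
  (280017, [(0, 0), (1, 0), (2, 0), (0, 1), (1, 1), (4, 4), (1, 4), (4, 1)], (2, 0), (2, 4)),
  (376257, [(0, 0), (1, 0), (4, 0), (0, 1), (1, 1), (1, 4), (2, 1), (2, 4)], (1, 0), (0, 1)),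
  (380595, [(0, 0), (1, 0), (2, 0), (0, 1), (1, 1), (4, 4), (1, 4), (4, 1)], (0, 1), (1, 4)),
  (380787, [(0, 0), (1, 0), (2, 0), (0, 1), (1, 1), (4, 4), (1, 4), (4, 1)], (0, 2), (1, 2)),
  (383211, [(0, 0), (1, 0), (2, 0), (0, 1), (1, 1), (4, 4), (1, 4), (4, 1)], (0, 1), (1, 1)),
  (384939, [(0, 0), (1, 0), (2, 0), (0, 1), (1, 1), (4, 4), (1, 4), (4, 1)], (0, 2), (1, 3)),
  (393675, [(0, 0), (1, 0), (4, 0), (0, 1), (0, 4), (1, 1), (4, 4), (2, 4)], (1, 0), (0, 4)),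
  (393693, [(0, 0), (1, 0), (4, 0), (0, 1), (0, 4), (1, 1), (4, 4), (1, 4)], (0, 1), (1, 4)),
  (393717, [(0, 0), (1, 0), (4, 0), (1, 1), (4, 4), (1, 4), (4, 1), (0, 1)], (0, 1), (1, 4)),
  (393747, [(0, 0), (1, 0), (4, 0), (0, 1), (0, 4), (1, 1), (4, 4), (1, 4)], (1, 0), (4, 1)),
  (393753, [(0, 0), (1, 0), (4, 0), (1, 1), (4, 4), (0, 1), (1, 4), (2, 4)], (1, 0), (4, 1)),
  (393825, [(0, 0), (1, 0), (4, 0), (1, 1), (4, 4), (1, 4), (4, 1), (0, 1)], (1, 0), (1, 4)),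
  (393909, [(0, 0), (1, 0), (4, 0), (0, 1), (0, 4), (1, 1), (4, 4), (2, 4)], (0, 1), (1, 4)),
  (393933, [(0, 0), (1, 0), (4, 0), (1, 1), (4, 4), (0, 1), (1, 4), (2, 4)], (0, 1), (1, 4)),
  (394391, [(0, 0), (1, 0), (4, 0), (1, 1), (4, 4), (1, 4), (4, 1), (0, 1)], (2, 3), (2, 2)),
  (394393, [(0, 0), (1, 0), (2, 0), (0, 1), (1, 1), (4, 4), (1, 4), (4, 1)], (2, 3), (2, 2)),
  (394395, [(0, 0), (1, 0), (4, 0), (0, 1), (0, 4), (1, 1), (4, 4), (2, 4)], (1, 4), (0, 1)),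
  (395119, [(0, 0), (1, 0), (4, 0), (1, 1), (4, 4), (1, 4), (4, 1), (0, 1)], (2, 2), (2, 3)),
  (395853, [(0, 0), (1, 0), (4, 0), (0, 1), (0, 4), (1, 1), (4, 4), (1, 4)], (0, 4), (1, 0)),
  (395865, [(0, 0), (1, 0), (4, 0), (1, 1), (4, 4), (1, 4), (4, 1), (0, 1)], (1, 0), (1, 1)),
  (395937, [(0, 0), (1, 0), (4, 0), (1, 1), (4, 4), (0, 1), (1, 4), (2, 4)], (1, 0), (4, 4)),
  (396117, [(0, 0), (1, 0), (4, 0), (1, 1), (4, 4), (0, 1), (1, 4), (2, 4)], (0, 4), (1, 1)),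
  (396333, [(0, 0), (1, 0), (4, 0), (1, 1), (4, 4), (1, 4), (4, 1), (0, 1)], (0, 1), (1, 1)),
  (396577, [(0, 0), (1, 0), (2, 0), (0, 1), (1, 1), (4, 4), (1, 4), (4, 1)], (2, 2), (2, 3)),
  (398035, [(0, 0), (1, 0), (4, 0), (0, 1), (0, 4), (1, 1), (4, 4), (2, 4)], (1, 1), (0, 4)),
  (398037, [(0, 0), (1, 0), (4, 0), (0, 1), (0, 4), (1, 1), (4, 4), (1, 4)], (0, 1), (1, 0)),
  (398043, [(0, 0), (1, 0), (4, 0), (0, 1), (0, 4), (1, 1), (4, 4), (1, 4)], (1, 0), (4, 4)),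
  (398061, [(0, 0), (1, 0), (4, 0), (0, 1), (0, 4), (1, 1), (4, 4), (2, 4)], (0, 1), (1, 0)),
  (398115, [(0, 0), (1, 0), (4, 0), (0, 1), (0, 4), (1, 1), (4, 4), (2, 4)], (1, 0), (0, 1)),
  (398277, [(0, 0), (1, 0), (4, 0), (0, 1), (0, 4), (1, 1), (4, 4), (1, 4)], (0, 4), (1, 1))
]

/-- leaf test -/
def leaf5 (c : ℕ) : Bool := certs.any (fun x => Nat.beq x.1 c)

set_option maxRecDepth 100000 in
theorem search5 : goTop F5 7 3 leaf5 e0_5 es0_5 e1_5 es1_5 Ls_5 = true := by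
  decide +kernel

set_option maxRecDepth 100000 in
theorem search5' : goTop F5 8 4 (fun _ => false) e0_5 es0_5 e1_5 es1_5 Ls_5 = true := by
  decide +kernel

/-- all entries -/
def all5 : List Ent := (e0_5 :: es0_5) ++ ((e1_5 :: es1_5) ++ Ls_5.flatten)

set_option maxRecDepth 100000 in
theorem ok5 : ∀ e ∈ all5, e.OK 5 := by decide +kernel

set_option maxRecDepth 100000 in
theorem reps5 : IsReps (all5.map (Ent.el 5)) := by
  refine ⟨?_, ?_, ?_⟩
  · decide +kernel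
  · decide +kernel
  · decide +kernel

set_option maxRecDepth 100000 in
theorem ind5 : (∀ z : ZMod 5 × ZMod 5, z ≠ 0 → ind 5 all5 z = 1) := by decide +kernel

set_option maxRecDepth 100000 in
theorem ind5a : (∀ z : ZMod 5 × ZMod 5, z ≠ 0 →
    ind 5 (e0_5 :: es0_5) z = if dt z (1, 0) = 0 then 1 else 0) := by decide +kernel

set_option maxRecDepth 100000 in
theorem ind5b : (∀ z : ZMod 5 × ZMod 5, z ≠ 0 →
    ind 5 (e1_5 :: es1_5) z = if dt z (0, 1) = 0 then 1 else 0) := by decide +kernel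

set_option maxRecDepth 100000 in
theorem ind5c : ∀ L ∈ Ls_5, ((L.headD e0_5).el 5).2 ≠ 0 ∧ (∀ z : ZMod 5 × ZMod 5, z ≠ 0 →
    ind 5 L z = if dt z ((L.headD e0_5).el 5) = 0 then 1 else 0) := by decide +kernel

/-- image of a list of vectors with natural number coordinates under the linear map with columns `u`, `v` -/
def imgList (L : List (ℕ × ℕ)) (u v : ZMod 5 × ZMod 5) : List (ZMod 5 × ZMod 5) :=
  L.map (fun x => ((x.1 : ZMod 5) * u.1 + (x.2 : ZMod 5) * v.1,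
    (x.1 : ZMod 5) * u.2 + (x.2 : ZMod 5) * v.2))

/-- list version of `mu` -/
def muL (l : List (ZMod 5 × ZMod 5)) (x : ZMod 5 × ZMod 5) : ℕ :=
  l.countP (fun y => decide (y = x ∨ y = -x))

lemma mu_toFinset (l : List (ZMod 5 × ZMod 5)) (hl : l.Nodup) (x : ZMod 5 × ZMod 5) :
    mu l.toFinset x = muL l x := by
  unfold mu muL
  have : (l.toFinset.filter (fun y => y = x ∨ y = -x))
      = (l.filter (fun y => decide (y = x ∨ y = -x))).toFinset := by
    ext y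
    simp
  rw [this, List.toFinset_card_of_nodup (hl.filter _), List.countP_eq_length_filter]

set_option maxRecDepth 100000 in
theorem certs_ok' : ∀ x ∈ certs, x.2.1 ∈ exceptional ∧ dt x.2.2.1 x.2.2.2 ≠ 0 ∧
    (imgList x.2.1 x.2.2.1 x.2.2.2).Nodup ∧
    codeOf 5 (muL (imgList x.2.1 x.2.2.1 x.2.2.2)) all5 0 = x.1 := by decide +kernel

lemma codeOf_inj {p : ℕ} (μ ν : ZMod p × ZMod p → ℕ) (es : List Ent)
    (hμ : ∀ e ∈ es, μ (e.el p) ≤ 2) (hν : ∀ e ∈ es, ν (e.el p) ≤ 2) (c d : ℕ)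
    (h : codeOf p μ es c = codeOf p ν es d) : c = d ∧ ∀ e ∈ es, μ (e.el p) = ν (e.el p) := by
  induction es generalizing c d with
  | nil => exact ⟨h, by simp⟩
  | cons e es ih =>
    have h1 := ih (fun e' h' => hμ e' (List.mem_cons_of_mem _ h'))
      (fun e' h' => hν e' (List.mem_cons_of_mem _ h')) _ _ h
    have h2 := hμ e List.mem_cons_self
    have h3 := hν e List.mem_cons_self
    refine ⟨by omega, ?_⟩
    intro e' he'
    rw [List.mem_cons] at he'
    rcases he' with rfl | he'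
    · omega
    · exact h1.2 e' he'

lemma mu_neg {p : ℕ} (S : Finset (ZMod p × ZMod p)) (x : ZMod p × ZMod p) : mu S (-x) = mu S x := by
  unfold mu
  congr 1
  apply Finset.filter_congr
  intro y _
  rw [neg_neg, or_comm]

lemma mu_image {p : ℕ} (S : Finset (ZMod p × ZMod p)) (e : (ZMod p × ZMod p) ≃+ (ZMod p × ZMod p))
    (x : ZMod p × ZMod p) : mu (S.image e) (e x) = mu S x := by
  classical
  unfold mu
  rw [Finset.filter_image, Finset.card_image_of_injective _ e.injective]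
  congr 1
  apply Finset.filter_congr
  intro y _
  rw [← map_neg, e.injective.eq_iff, e.injective.eq_iff]

/-- normalised search, common part -/
lemma run5 (S : Finset (ZMod 5 × ZMod 5)) (h0 : (0 : ZMod 5 × ZMod 5) ∉ S) (tg cap : ℕ)
    (leaf : ℕ → Bool) (hs : goTop F5 tg cap leaf e0_5 es0_5 e1_5 es1_5 Ls_5 = true)
    (hcard : S.card = tg) (hct : cap < tg) (hline : ∀ v ≠ 0, lc S v ≤ cap) :
    Full S ∨ ∃ e : (ZMod 5 × ZMod 5) ≃+ (ZMod 5 × ZMod 5),
      leaf (codeOf 5 (mu (S.image e)) all5 0) = true := by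
  classical
  obtain ⟨e, h10, h01, hc0, hc1, hc2⟩ := normalize S cap h0 hline (by omega)
  rw [← full_image_iff e S, full_iff_cov (S.image e) _ reps5]
  have h0' : (0 : ZMod 5 × ZMod 5) ∉ S.image e := by
    intro h
    obtain ⟨x, hx, hx0⟩ := Finset.mem_image.mp h
    have : x = 0 := e.injective (by rw [hx0, map_zero])
    exact h0 (this ▸ hx)
  have hcard' : (S.image e).card = tg := by
    rw [Finset.card_image_of_injective _ e.injective, hcard]
  have hF : F5 = 2 ^ (5 * 5) - 1 := by norm_num [F5]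
  rw [hF] at hs
  have ht0 := tot_eq_lc (S.image e) h0' _ _ ind5a
  have ht1 := tot_eq_lc (S.image e) h0' _ _ ind5b
  rcases goTop_sound (p := 5) (mu (S.image e)) tg cap leaf e0_5 es0_5 e1_5 es1_5 Ls_5
    ok5 (fun _ _ => mu_le_two _ _) (one_le_mu _ _ h10) (one_le_mu _ _ h01)
    (by rw [ht0]; exact hc0) (by rw [ht0, ht1]; exact hc1)
    (fun L hL => by
      rw [ht1, tot_eq_lc (S.image e) h0' L _ (ind5c L hL).2]
      exact hc2 _ (ind5c L hL).1)
    (by rw [← hcard']; exact tot_eq_card (S.image e) h0' all5 ind5) hs with h | h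
  · exact Or.inl h
  · exact Or.inr ⟨e, h⟩

set_option maxRecDepth 100000 in
theorem line_le5 : ∀ v : ZMod 5 × ZMod 5, v ≠ 0 →
    ((Finset.univ : Finset (ZMod 5 × ZMod 5)).filter (fun s => s ≠ 0 ∧ dt s v = 0)).card ≤ 4 := by
  decide +kernel

theorem full8 (S : Finset (ZMod 5 × ZMod 5)) (h0 : (0 : ZMod 5 × ZMod 5) ∉ S)
    (hcard : S.card = 8) : Full S := by
  classical
  rcases run5 S h0 8 4 (fun _ => false) search5' hcard (by norm_num) (by
    intro v hv
    refine le_trans ?_ (line_le5 v hv)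
    apply Finset.card_le_card
    intro z hz
    rw [Finset.mem_filter] at hz ⊢
    refine ⟨Finset.mem_univ _, ?_, hz.2⟩
    rintro rfl
    exact h0 hz.1) with h | ⟨e, h⟩
  · exact h
  · exact absurd h (by simp)

theorem class5 (S : Finset (ZMod 5 × ZMod 5)) (h0 : (0 : ZMod 5 × ZMod 5) ∉ S)
    (hcard : S.card = 7) (hline : ∀ v ≠ 0, lc S v ≤ 3) (hnf : ¬ Full S) :
    ∃ L ∈ exceptional, ∃ φ : (ZMod 5 × ZMod 5) ≃+ (ZMod 5 × ZMod 5),
      ∀ x, x ≠ 0 → mu S x = mu ((toSet 5 L).image φ) x := by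
  classical
  rcases run5 S h0 7 3 leaf5 search5 hcard (by norm_num) hline with h | ⟨e, h⟩
  · exact absurd h hnf
  · unfold leaf5 at h
    rw [List.any_eq_true] at h
    obtain ⟨c, hc, hcode⟩ := h
    have hcode' : c.1 = codeOf 5 (mu (S.image e)) all5 0 := Nat.eq_of_beq_eq_true hcode
    obtain ⟨h1, h2, hnd, h3⟩ := certs_ok' c hc
    have hmu : muL (imgList c.2.1 c.2.2.1 c.2.2.2) = mu (imgList c.2.1 c.2.2.1 c.2.2.2).toFinset :=
      funext fun x => (mu_toFinset _ hnd x).symm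
    rw [hcode', hmu] at h3
    have h4 := (codeOf_inj _ _ all5 (fun _ _ => mu_le_two _ _) (fun _ _ => mu_le_two _ _) 0 0 h3).2
    have h5 : (imgList c.2.1 c.2.2.1 c.2.2.2).toFinset
        = (toSet 5 c.2.1).image (basisE c.2.2.1 c.2.2.2 h2).symm := by
      unfold imgList toSet
      ext y
      simp only [List.mem_toFinset, List.mem_map, Finset.mem_image]
      constructor
      · rintro ⟨x, hx, rfl⟩
        exact ⟨_, ⟨x, hx, rfl⟩, rfl⟩
      · rintro ⟨_, ⟨x, hx, rfl⟩, rfl⟩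
        exact ⟨x, hx, rfl⟩
    rw [h5] at h4
    refine ⟨c.2.1, h1, (basisE c.2.2.1 c.2.2.2 h2).symm.trans e.symm, ?_⟩
    intro x hx
    have h6 : (toSet 5 c.2.1).image ((basisE c.2.2.1 c.2.2.2 h2).symm.trans e.symm)
        = ((toSet 5 c.2.1).image (basisE c.2.2.1 c.2.2.2 h2).symm).image e.symm := by
      rw [Finset.image_image]
      rfl
    have h7 : x = e.symm (e x) := by simp
    rw [h6]
    conv_rhs => rw [h7]
    rw [mu_image, ← mu_image S e x]
    have h8 : e x ≠ 0 := by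
      intro h
      exact hx (e.injective (by rw [h, map_zero]))
    obtain ⟨r, hr, hr2⟩ := reps5.2.2 (e x) h8
    obtain ⟨e', he', rfl⟩ := List.mem_map.mp hr
    rcases hr2 with hr2 | hr2
    · rw [hr2]; exact (h4 e' he').symm
    · rw [hr2, mu_neg, mu_neg]; exact (h4 e' he').symm

/-- an element missed by each exceptional set -/
def missed : List (List (ℕ × ℕ) × (ZMod 5 × ZMod 5)) := [
  ([(0, 0), (1, 0), (4, 0), (0, 1), (1, 1), (1, 4), (2, 1), (2, 4)], (0, -2)),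
  ([(0, 0), (1, 0), (2, 0), (0, 1), (1, 1), (1, 4), (2, 1), (2, 4)], (2, -2)),
  ([(0, 0), (1, 0), (4, 0), (1, 1), (4, 4), (0, 1), (1, 4), (2, 4)], (-1, 2)),
  ([(0, 0), (1, 0), (4, 0), (1, 1), (4, 4), (1, 4), (4, 1), (0, 1)], (2, -2)),
  ([(0, 0), (1, 0), (4, 0), (0, 1), (0, 4), (1, 1), (4, 4), (2, 4)], (-2, 2)),
  ([(0, 0), (1, 0), (2, 0), (0, 1), (1, 1), (4, 4), (1, 4), (4, 1)], (-1, -2)),
  ([(0, 0), (1, 0), (4, 0), (0, 1), (0, 4), (1, 1), (4, 4), (1, 4)], (-2, 2))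
]

/-- `g` is not a subset sum of the list -/
def notSum : List (ZMod 5 × ZMod 5) → ZMod 5 × ZMod 5 → Bool
  | [], g => decide (g ≠ 0)
  | x :: l, g => notSum l g && notSum l (g - x)

lemma notSum_sound (l : List (ZMod 5 × ZMod 5)) (hl : l.Nodup) (g : ZMod 5 × ZMod 5)
    (h : notSum l g = true) (B : Finset (ZMod 5 × ZMod 5)) (hB : B ⊆ l.toFinset) :
    ∑ b ∈ B, b ≠ g := by
  classical
  induction l generalizing g B with
  | nil =>
    have : B = ∅ := by simpa using hB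
    subst this
    simp only [notSum, ne_eq, decide_not, Bool.not_eq_eq_eq_not, Bool.not_true, decide_eq_false_iff_not] at h
    simpa using fun h' => h h'.symm
  | cons x l ih =>
    unfold notSum at h
    rw [Bool.and_eq_true] at h
    rw [List.nodup_cons] at hl
    by_cases hx : x ∈ B
    · have h1 : B.erase x ⊆ l.toFinset := by
        intro y hy
        rw [Finset.mem_erase] at hy
        have := hB hy.2
        rw [List.toFinset_cons, Finset.mem_insert] at this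
        exact this.resolve_left hy.1
      have h2 := ih hl.2 (g - x) h.2 _ h1
      intro h3
      apply h2
      rw [← h3, ← Finset.add_sum_erase B (fun b => b) hx]
      abel
    · have h1 : B ⊆ l.toFinset := by
        intro y hy
        have := hB hy
        rw [List.toFinset_cons, Finset.mem_insert] at this
        rcases this with rfl | h4
        · exact absurd hy hx
        · exact h4
      exact ih hl.2 g h.1 B h1

/-- the list of reductions -/
def redL (L : List (ℕ × ℕ)) : List (ZMod 5 × ZMod 5) :=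
  L.map (fun x => ((x.1 : ZMod 5), (x.2 : ZMod 5)))

set_option maxRecDepth 100000 in
theorem missed_ok : ∀ x ∈ missed, (redL x.1).Nodup ∧ notSum (redL x.1) x.2 = true := by
  decide +kernel

theorem missed_all : exceptional = missed.map Prod.fst := rfl

theorem exceptional_not_full : ∀ L ∈ exceptional, ¬ Full (toSet 5 L) := by
  intro L hL h
  rw [missed_all] at hL
  obtain ⟨x, hx, rfl⟩ := List.mem_map.mp hL
  obtain ⟨B, hB, hs⟩ := h x.2
  obtain ⟨h1, h2⟩ := missed_ok x hx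
  exact notSum_sound (redL x.1) h1 x.2 h2 B hB hs

set_option maxRecDepth 100000 in
theorem exceptional_card : ∀ L ∈ exceptional, (toSet 5 L).card = 8 := by decide +kernel

set_option maxRecDepth 100000 in
theorem exceptional_zero : ∀ L ∈ exceptional, (0 : ZMod 5 × ZMod 5) ∈ toSet 5 L := by
  decide +kernel

end Pool.Agent.MP7e2af8
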