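import Mathlib

/-! Bit-mask search over multiplicity vectors (kernel computable definitions). -/

namespace Pool.Agent.MP7e2af8

/-- A class representative `(a, b)` with precomputed data for translating bit masks. -/
structure Ent where
  a : ℕ
  b : ℕ
  sa : ℕ
  sa' : ℕ
  pb : ℕ
  lo : ℕ
  hi : ℕ

/-- Translate a mask (bits `i * p + j`) by `(e.a, e.b)`. -/
def Ent.shift (F : ℕ) (e : Ent) (m : ℕ) : ℕ :=
  Nat.lor
    (Nat.shiftLeft (Nat.land (Nat.lor (Nat.land (Nat.shiftLeft m e.sa) F) (Nat.shiftRight m e.sa')) e.lo) e.b)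
    (Nat.shiftRight (Nat.land (Nat.lor (Nat.land (Nat.shiftLeft m e.sa) F) (Nat.shiftRight m e.sa')) e.hi) e.pb)

/-- One more copy of the representative. -/
def Ent.step (F : ℕ) (e : Ent) (m : ℕ) : ℕ := Nat.lor m (e.shift F m)

/-- Loop over the representatives of one line.
`F` full mask, `tg` target number of elements, `cap` the cap for the line,
`m` mask, `cnt` number of elements so far, `lc` elements on this line so far, `code` base 3 code. -/
def goLine (F tg cap : ℕ) (k : ℕ → ℕ → ℕ → ℕ → Bool) : List Ent → ℕ → ℕ → ℕ → ℕ → Bool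
  | [], m, cnt, lc, code => k m cnt lc code
  | e :: es, m, cnt, lc, code =>
    Nat.beq m F ||
      (goLine F tg cap k es m cnt lc (3 * code) &&
        (Nat.blt cap (lc + 1) || Nat.blt tg (cnt + 1) ||
          (goLine F tg cap k es (e.step F m) (cnt + 1) (lc + 1) (3 * code + 1) &&
            (Nat.blt cap (lc + 2) || Nat.blt tg (cnt + 2) ||
              goLine F tg cap k es (e.step F (e.step F m)) (cnt + 2) (lc + 2) (3 * code + 2)))))

/-- Loop over the remaining lines, all with cap `cap`. -/
def goRest (F tg cap : ℕ) (leaf : ℕ → Bool) : List (List Ent) → ℕ → ℕ → ℕ → Bool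
  | [], m, cnt, code => Nat.beq m F || !(Nat.beq cnt tg) || leaf code
  | L :: Ls, m, cnt, code =>
    Nat.blt (cnt + (Ls.length + 1) * cap) tg ||
      goLine F tg cap (fun m' cnt' _ code' => goRest F tg cap leaf Ls m' cnt' code') L m cnt 0 code

/-- A line whose first representative occurs at least once. -/
def goFirst (F tg cap : ℕ) (k : ℕ → ℕ → ℕ → ℕ → Bool) (e : Ent) (es : List Ent)
    (m cnt code : ℕ) : Bool :=
  goLine F tg cap k es (e.step F m) (cnt + 1) 1 (3 * code + 1) &&
    (Nat.blt cap 2 ||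
      goLine F tg cap k es (e.step F (e.step F m)) (cnt + 2) 2 (3 * code + 2))

/-- The whole search. -/
def goTop (F tg cap : ℕ) (leaf : ℕ → Bool) (e0 : Ent) (es0 : List Ent) (e1 : Ent) (es1 : List Ent)
    (Ls : List (List Ent)) : Bool :=
  goFirst F tg cap (fun m cnt m1 code =>
    goFirst F tg m1 (fun m' cnt' m2 code' => goRest F tg m2 leaf Ls m' cnt' code') e1 es1 m cnt code)
    e0 es0 1 0 0

end Pool.Agent.MP7e2af8
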