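import Pool.Agent.Lib_MP_7e2af8_co.SearchDef

/-! Soundness of the bit-mask search. -/

namespace Pool.Agent.MP7e2af8

open Finset

section

variable {p : ℕ}

/-- The group element coded by a bit position. -/
def dec (p i : ℕ) : ZMod p × ZMod p := (((i / p : ℕ) : ZMod p), (i : ZMod p))

/-- Every bit of the mask is a position of an element of `X`. -/
def RepM (p m : ℕ) (X : Set (ZMod p × ZMod p)) : Prop :=
  ∀ i, m.testBit i = true → i < p * p ∧ dec p i ∈ X

/-- The group element of an entry. -/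
def Ent.el (p : ℕ) (e : Ent) : ZMod p × ZMod p := ((e.a : ZMod p), (e.b : ZMod p))

/-- The precomputed data of an entry are right. -/
def Ent.OK (p : ℕ) (e : Ent) : Prop :=
  e.a < p ∧ e.b < p ∧ e.sa = p * e.a ∧ e.sa' = p * (p - e.a) ∧ e.pb = p - e.b ∧
  (∀ j < p * p, e.lo.testBit j = true → j % p < p - e.b) ∧
  (∀ j < p * p, e.hi.testBit j = true → p - e.b ≤ j % p)

instance (p : ℕ) (e : Ent) : Decidable (e.OK p) := by unfold Ent.OK; infer_instance

lemma RepM.mono {m : ℕ} {X Y : Set (ZMod p × ZMod p)} (h : RepM p m X) (hXY : X ⊆ Y) :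
    RepM p m Y := fun i hi => ⟨(h i hi).1, hXY (h i hi).2⟩

lemma RepM.lor {m m' : ℕ} {X Y : Set (ZMod p × ZMod p)} (h : RepM p m X) (h' : RepM p m' X)
    (hXY : X ⊆ Y) : RepM p (Nat.lor m m') Y := by
  intro i hi
  have hi' : (m ||| m').testBit i = true := hi
  rw [Nat.testBit_or, Bool.or_eq_true] at hi'
  rcases hi' with h1 | h1
  · exact ⟨(h i h1).1, hXY (h i h1).2⟩
  · exact ⟨(h' i h1).1, hXY (h' i h1).2⟩

lemma shift_sound (hp : 0 < p) {e : Ent} (he : e.OK p) {m : ℕ} {X : Set (ZMod p × ZMod p)}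
    (h : RepM p m X) : RepM p (e.shift (2 ^ (p * p) - 1) m) {y | ∃ x ∈ X, y = x + e.el p} := by
  obtain ⟨ha, hb, hsa, hsa', hpb, hlo, hhi⟩ := he
  set r := ((m <<< e.sa) &&& (2 ^ (p * p) - 1)) ||| (m >>> e.sa') with hr
  have hrow : RepM p r {y | ∃ x ∈ X, y = x + ((e.a : ZMod p), (0 : ZMod p))} := by
    intro i hi
    rw [hr, Nat.testBit_or, Bool.or_eq_true, Nat.testBit_and, Bool.and_eq_true,
      Nat.testBit_shiftLeft, Bool.and_eq_true, decide_eq_true_eq, Nat.testBit_shiftRight,
      Nat.testBit_two_pow_sub_one, decide_eq_true_eq] at hi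
    rcases hi with ⟨⟨h1, h2⟩, h3⟩ | h1
    · refine ⟨h3, dec p (i - e.sa), (h _ h2).2, ?_⟩
      have h4 : i = (i - e.sa) + p * e.a := by rw [← hsa]; exact (Nat.sub_add_cancel h1).symm
      unfold dec
      ext
      · simp only [Prod.fst_add]
        conv_lhs => rw [h4]
        rw [Nat.add_mul_div_left _ _ hp]
        push_cast
        rfl
      · simp only [Prod.snd_add, add_zero]
        conv_lhs => rw [h4]
        push_cast
        simp
    · have h2 := h _ h1
      refine ⟨by omega, dec p (e.sa' + i), h2.2, ?_⟩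
      unfold dec
      ext
      · simp only [Prod.fst_add]
        rw [hsa', Nat.mul_add_div hp]
        rw [Nat.cast_add, Nat.cast_sub ha.le]
        simp
      · simp only [Prod.snd_add, add_zero]
        rw [hsa']
        push_cast
        simp
  intro i hi
  have hi' : ((((r &&& e.lo) <<< e.b) ||| ((r &&& e.hi) >>> e.pb)).testBit i) = true := hi
  rw [Nat.testBit_or, Bool.or_eq_true, Nat.testBit_shiftLeft, Bool.and_eq_true,
    decide_eq_true_eq, Nat.testBit_shiftRight, Nat.testBit_and, Nat.testBit_and,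
    Bool.and_eq_true, Bool.and_eq_true] at hi'
  rcases hi' with ⟨h1, h2, h3⟩ | ⟨h2, h3⟩
  · obtain ⟨h4, x, hx, hx2⟩ := hrow _ h2
    have h5 := hlo _ h4 h3
    set j := i - e.b with hj
    have h6 : i = j + e.b := by omega
    have h7 : j = p * (j / p) + j % p := (Nat.div_add_mod j p).symm
    have h8 : i = p * (j / p) + (j % p + e.b) := by omega
    have h9 : i / p = j / p := by
      rw [h8, Nat.mul_add_div hp, Nat.div_eq_of_lt (show j % p + e.b < p by omega), add_zero]
    have h10 : j / p < p := Nat.div_lt_of_lt_mul h4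
    refine ⟨?_, x, hx, ?_⟩
    · rw [h8]
      calc p * (j / p) + (j % p + e.b) < p * (j / p) + p := by omega
        _ = p * (j / p + 1) := by ring
        _ ≤ p * p := Nat.mul_le_mul_left _ h10
    · unfold dec at hx2 ⊢
      rw [Prod.ext_iff] at hx2 ⊢
      obtain ⟨hx3, hx4⟩ := hx2
      simp only [Prod.fst_add, Prod.snd_add, add_zero] at hx3 hx4 ⊢
      constructor
      · rw [h9, hx3]; rfl
      · rw [h6, Nat.cast_add, hx4]; rfl
  · obtain ⟨h4, x, hx, hx2⟩ := hrow _ h2
    have h5 := hhi _ h4 h3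
    set j := e.pb + i with hj
    have h7 : j = p * (j / p) + j % p := (Nat.div_add_mod j p).symm
    have h11 : j % p < p := Nat.mod_lt _ hp
    have h8 : i = p * (j / p) + (j % p - e.pb) := by omega
    have h9 : i / p = j / p := by
      rw [h8, Nat.mul_add_div hp, Nat.div_eq_of_lt (show j % p - e.pb < p by omega), add_zero]
    refine ⟨by omega, x, hx, ?_⟩
    unfold dec at hx2 ⊢
    rw [Prod.ext_iff] at hx2 ⊢
    obtain ⟨hx3, hx4⟩ := hx2
    simp only [Prod.fst_add, Prod.snd_add, add_zero] at hx3 hx4 ⊢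
    constructor
    · rw [h9, hx3]; rfl
    · have h12 : (j : ZMod p) + (e.b : ZMod p) = (i : ZMod p) := by
        have h13 : j + e.b = p + i := by omega
        rw [← Nat.cast_add, h13]
        simp
      rw [← h12, hx4]
      rfl

/-- Add an interval of multiples of `x`. -/
def addI (X : Set (ZMod p × ZMod p)) (x : ZMod p × ZMod p) (m : ℕ) : Set (ZMod p × ZMod p) :=
  {y | ∃ z ∈ X, ∃ i ≤ m, y = z + i • x}

/-- Iterated version. -/
def Cov (μ : ZMod p × ZMod p → ℕ) : List (ZMod p × ZMod p) → Set (ZMod p × ZMod p) →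
    Set (ZMod p × ZMod p)
  | [], X => X
  | r :: rs, X => Cov μ rs (addI X r (μ r))

lemma subset_addI (X : Set (ZMod p × ZMod p)) (x : ZMod p × ZMod p) (m : ℕ) : X ⊆ addI X x m :=
  fun z hz => ⟨z, hz, 0, Nat.zero_le _, by simp⟩

lemma subset_Cov (μ : ZMod p × ZMod p → ℕ) (rs : List (ZMod p × ZMod p))
    (X : Set (ZMod p × ZMod p)) : X ⊆ Cov μ rs X := by
  induction rs generalizing X with
  | nil => exact subset_rfl
  | cons r rs ih => exact (subset_addI X r (μ r)).trans (ih _)

lemma Cov_append (μ : ZMod p × ZMod p → ℕ) (rs ts : List (ZMod p × ZMod p))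
    (X : Set (ZMod p × ZMod p)) : Cov μ (rs ++ ts) X = Cov μ ts (Cov μ rs X) := by
  induction rs generalizing X with
  | nil => rfl
  | cons r rs ih => exact ih _

lemma Cov_univ (μ : ZMod p × ZMod p → ℕ) (rs : List (ZMod p × ZMod p)) :
    Cov μ rs Set.univ = Set.univ := Set.eq_univ_of_univ_subset (subset_Cov μ rs _)

lemma univ_of_full [NeZero p] {X : Set (ZMod p × ZMod p)} (h : RepM p (2 ^ (p * p) - 1) X) :
    X = Set.univ := by
  have hp : 0 < p := Nat.pos_of_ne_zero (NeZero.ne p)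
  rw [Set.eq_univ_iff_forall]
  intro g
  have h1 : g.1.val * p + g.2.val < p * p := by
    have h2 := ZMod.val_lt g.1
    have h3 := ZMod.val_lt g.2
    calc g.1.val * p + g.2.val < g.1.val * p + p := by omega
      _ = (g.1.val + 1) * p := by ring
      _ ≤ p * p := Nat.mul_le_mul_right _ h2
  have h2 := (h (g.1.val * p + g.2.val) (by
    rw [Nat.testBit_two_pow_sub_one]; simpa using h1)).2
  have h3 : dec p (g.1.val * p + g.2.val) = g := by
    unfold dec
    have h4 : (g.1.val * p + g.2.val) / p = g.1.val := by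
      rw [mul_comm, Nat.mul_add_div hp, Nat.div_eq_of_lt (ZMod.val_lt g.2), add_zero]
    rw [h4]
    ext
    · simp
    · simp
  rwa [h3] at h2

/-- The multiplicity code. -/
def codeOf (p : ℕ) (μ : ZMod p × ZMod p → ℕ) : List Ent → ℕ → ℕ
  | [], c => c
  | e :: es, c => codeOf p μ es (3 * c + μ (e.el p))

/-- total multiplicity of a list of entries. -/
def tot (p : ℕ) (μ : ZMod p × ZMod p → ℕ) (es : List Ent) : ℕ := (es.map (fun e => μ (e.el p))).sum

@[simp] lemma tot_nil (μ : ZMod p × ZMod p → ℕ) : tot p μ [] = 0 := rfl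
@[simp] lemma tot_cons (μ : ZMod p × ZMod p → ℕ) (e : Ent) (es : List Ent) :
    tot p μ (e :: es) = μ (e.el p) + tot p μ es := by simp [tot]

lemma tot_append (μ : ZMod p × ZMod p → ℕ) (es fs : List Ent) :
    tot p μ (es ++ fs) = tot p μ es + tot p μ fs := by simp [tot]

lemma codeOf_append (μ : ZMod p × ZMod p → ℕ) (es fs : List Ent) (c : ℕ) :
    codeOf p μ (es ++ fs) c = codeOf p μ fs (codeOf p μ es c) := by
  induction es generalizing c with
  | nil => rfl
  | cons e es ih => exact ih _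

lemma step1_sound (hp : 0 < p) {e : Ent} (he : e.OK p) {m : ℕ} {X : Set (ZMod p × ZMod p)}
    (h : RepM p m X) : RepM p (e.step (2 ^ (p * p) - 1) m) (addI X (e.el p) 1) := by
  have h1 := shift_sound hp he h
  have h2 : RepM p m (addI X (e.el p) 1) := h.mono (subset_addI _ _ _)
  have h3 : RepM p (e.shift (2 ^ (p * p) - 1) m) (addI X (e.el p) 1) := h1.mono (by
    rintro y ⟨x, hx, rfl⟩
    exact ⟨x, hx, 1, le_rfl, by simp⟩)
  exact h2.lor h3 subset_rfl

lemma step2_sound (hp : 0 < p) {e : Ent} (he : e.OK p) {m : ℕ} {X : Set (ZMod p × ZMod p)}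
    (h : RepM p m X) : RepM p (e.step (2 ^ (p * p) - 1) (e.step (2 ^ (p * p) - 1) m))
      (addI X (e.el p) 2) := by
  refine (step1_sound hp he (step1_sound hp he h)).mono ?_
  rintro y ⟨z, ⟨x, hx, i, hi, rfl⟩, j, hj, rfl⟩
  exact ⟨x, hx, i + j, by omega, by rw [add_smul, add_assoc]⟩

theorem goLine_sound [NeZero p] (μ : ZMod p × ZMod p → ℕ) (tg cap : ℕ)
    (k : ℕ → ℕ → ℕ → ℕ → Bool) (es : List Ent) (m cnt lc code : ℕ)
    (X : Set (ZMod p × ZMod p)) (hOK : ∀ e ∈ es, e.OK p) (hX : RepM p m X)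
    (hμ : ∀ e ∈ es, μ (e.el p) ≤ 2) (hcap : lc + tot p μ es ≤ cap) (htg : cnt + tot p μ es ≤ tg)
    (h : goLine (2 ^ (p * p) - 1) tg cap k es m cnt lc code = true) :
    Cov μ (es.map (Ent.el p)) X = Set.univ ∨
      ∃ m', RepM p m' (Cov μ (es.map (Ent.el p)) X) ∧
        k m' (cnt + tot p μ es) (lc + tot p μ es) (codeOf p μ es code) = true := by
  have hp : 0 < p := Nat.pos_of_ne_zero (NeZero.ne p)
  induction es generalizing m cnt lc code X with
  | nil => exact Or.inr ⟨m, hX, h⟩
  | cons e es ih =>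
    unfold goLine at h
    rw [Bool.or_eq_true, Bool.and_eq_true, Bool.or_eq_true, Bool.or_eq_true, Bool.and_eq_true,
      Bool.or_eq_true, Bool.or_eq_true] at h
    have hOK' : ∀ e ∈ es, e.OK p := fun e' he' => hOK e' (List.mem_cons_of_mem _ he')
    have heOK : e.OK p := hOK e List.mem_cons_self
    have hμ' : ∀ e ∈ es, μ (e.el p) ≤ 2 := fun e' he' => hμ e' (List.mem_cons_of_mem _ he')
    have hμe : μ (e.el p) ≤ 2 := hμ e List.mem_cons_self
    rw [tot_cons] at hcap htg
    have hcov : Cov μ ((e :: es).map (Ent.el p)) X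
        = Cov μ (es.map (Ent.el p)) (addI X (e.el p) (μ (e.el p))) := rfl
    have hcode : codeOf p μ (e :: es) code = codeOf p μ es (3 * code + μ (e.el p)) := rfl
    rcases h with h | h
    · left
      have : m = 2 ^ (p * p) - 1 := Nat.eq_of_beq_eq_true h
      rw [this] at hX
      rw [univ_of_full hX]
      exact Cov_univ _ _
    · rw [hcov, hcode, tot_cons]
      have h012 : μ (e.el p) = 0 ∨ μ (e.el p) = 1 ∨ μ (e.el p) = 2 := by omega
      rcases h012 with h0 | h1 | h2
      · rw [h0]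
        have := ih m cnt lc (3 * code) (addI X (e.el p) 0) hOK' (hX.mono (subset_addI _ _ _)) hμ'
          (by omega) (by omega) h.1
        simpa using this
      · rw [h1]
        have hb1 : Nat.blt cap (lc + 1) = false := by
          rw [Bool.eq_false_iff, Ne, Nat.blt_eq]; omega
        have hb2 : Nat.blt tg (cnt + 1) = false := by
          rw [Bool.eq_false_iff, Ne, Nat.blt_eq]; omega
        have h3 := h.2
        rw [hb1, hb2] at h3
        simp only [Bool.false_eq_true, false_or] at h3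
        have := ih (e.step (2 ^ (p * p) - 1) m) (cnt + 1) (lc + 1) (3 * code + 1)
          (addI X (e.el p) 1) hOK' (step1_sound hp heOK hX) hμ' (by omega) (by omega) h3.1
        rw [add_assoc cnt, add_assoc lc] at this
        exact this
      · rw [h2]
        have hb1 : Nat.blt cap (lc + 1) = false := by
          rw [Bool.eq_false_iff, Ne, Nat.blt_eq]; omega
        have hb2 : Nat.blt tg (cnt + 1) = false := by
          rw [Bool.eq_false_iff, Ne, Nat.blt_eq]; omega
        have hb3 : Nat.blt cap (lc + 2) = false := by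
          rw [Bool.eq_false_iff, Ne, Nat.blt_eq]; omega
        have hb4 : Nat.blt tg (cnt + 2) = false := by
          rw [Bool.eq_false_iff, Ne, Nat.blt_eq]; omega
        have h3 := h.2
        rw [hb1, hb2, hb3, hb4] at h3
        simp only [Bool.false_eq_true, false_or] at h3
        have := ih (e.step (2 ^ (p * p) - 1) (e.step (2 ^ (p * p) - 1) m)) (cnt + 2) (lc + 2)
          (3 * code + 2) (addI X (e.el p) 2) hOK' (step2_sound hp heOK hX) hμ'
          (by omega) (by omega) h3.2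
        rw [add_assoc cnt, add_assoc lc] at this
        exact this

theorem goRest_sound [NeZero p] (μ : ZMod p × ZMod p → ℕ) (tg cap : ℕ) (leaf : ℕ → Bool)
    (Ls : List (List Ent)) (m cnt code : ℕ) (X : Set (ZMod p × ZMod p))
    (hOK : ∀ L ∈ Ls, ∀ e ∈ L, e.OK p) (hX : RepM p m X)
    (hμ : ∀ L ∈ Ls, ∀ e ∈ L, μ (e.el p) ≤ 2) (hcap : ∀ L ∈ Ls, tot p μ L ≤ cap)
    (htg : cnt + tot p μ Ls.flatten = tg)
    (h : goRest (2 ^ (p * p) - 1) tg cap leaf Ls m cnt code = true) :
    Cov μ (Ls.flatten.map (Ent.el p)) X = Set.univ ∨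
      leaf (codeOf p μ Ls.flatten code) = true := by
  induction Ls generalizing m cnt code X with
  | nil =>
    unfold goRest at h
    rw [Bool.or_eq_true, Bool.or_eq_true] at h
    rcases h with (h | h) | h
    · left
      have : m = 2 ^ (p * p) - 1 := Nat.eq_of_beq_eq_true h
      rw [this] at hX
      rw [univ_of_full hX]
      exact Cov_univ _ _
    · exfalso
      have htg' : cnt = tg := by simpa using htg
      rw [htg', Nat.beq_refl] at h
      simp at h
    · exact Or.inr h
  | cons L Ls ih =>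
    unfold goRest at h
    rw [Bool.or_eq_true] at h
    have hOK1 : ∀ e ∈ L, e.OK p := hOK L List.mem_cons_self
    have hOK2 : ∀ L ∈ Ls, ∀ e ∈ L, e.OK p := fun L' h' => hOK L' (List.mem_cons_of_mem _ h')
    have hμ1 : ∀ e ∈ L, μ (e.el p) ≤ 2 := hμ L List.mem_cons_self
    have hμ2 : ∀ L ∈ Ls, ∀ e ∈ L, μ (e.el p) ≤ 2 := fun L' h' => hμ L' (List.mem_cons_of_mem _ h')
    have hc1 : tot p μ L ≤ cap := hcap L List.mem_cons_self
    have hc2 : ∀ L ∈ Ls, tot p μ L ≤ cap := fun L' h' => hcap L' (List.mem_cons_of_mem _ h')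
    rw [List.flatten_cons, tot_append] at htg
    rw [List.flatten_cons, List.map_append, Cov_append, codeOf_append]
    have hbound : tot p μ Ls.flatten ≤ Ls.length * cap := by
      clear ih htg h hOK hμ hcap hOK2 hμ2
      induction Ls with
      | nil => simp
      | cons L' Ls' ih' =>
        rw [List.flatten_cons, tot_append, List.length_cons]
        have h1 := ih' (fun L'' h'' => hc2 L'' (List.mem_cons_of_mem _ h''))
        have h2 := hc2 L' List.mem_cons_self
        have : (Ls'.length + 1) * cap = Ls'.length * cap + cap := by ring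
        omega
    rcases h with h | h
    · exfalso
      rw [Nat.blt_eq] at h
      have : (Ls.length + 1) * cap = Ls.length * cap + cap := by ring
      omega
    · rcases goLine_sound μ tg cap _ L m cnt 0 code X hOK1 hX hμ1 (by omega) (by omega) h with
        h1 | ⟨m', hm', hk⟩
      · left
        rw [h1]
        exact Cov_univ _ _
      · exact ih m' (cnt + tot p μ L) (codeOf p μ L code) _ hOK2 hm' hμ2 hc2 (by omega) hk

theorem goFirst_sound [NeZero p] (μ : ZMod p × ZMod p → ℕ) (tg cap : ℕ)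
    (k : ℕ → ℕ → ℕ → ℕ → Bool) (e : Ent) (es : List Ent) (m cnt code : ℕ)
    (X : Set (ZMod p × ZMod p)) (hOK : ∀ e' ∈ e :: es, e'.OK p) (hX : RepM p m X)
    (hμ : ∀ e' ∈ e :: es, μ (e'.el p) ≤ 2) (hμ1 : 1 ≤ μ (e.el p))
    (hcap : tot p μ (e :: es) ≤ cap) (htg : cnt + tot p μ (e :: es) ≤ tg)
    (h : goFirst (2 ^ (p * p) - 1) tg cap k e es m cnt code = true) :
    Cov μ ((e :: es).map (Ent.el p)) X = Set.univ ∨
      ∃ m', RepM p m' (Cov μ ((e :: es).map (Ent.el p)) X) ∧
        k m' (cnt + tot p μ (e :: es)) (tot p μ (e :: es)) (codeOf p μ (e :: es) code) = true := by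
  have hp : 0 < p := Nat.pos_of_ne_zero (NeZero.ne p)
  unfold goFirst at h
  rw [Bool.and_eq_true, Bool.or_eq_true] at h
  have hOK' : ∀ e ∈ es, e.OK p := fun e' he' => hOK e' (List.mem_cons_of_mem _ he')
  have heOK : e.OK p := hOK e List.mem_cons_self
  have hμ' : ∀ e ∈ es, μ (e.el p) ≤ 2 := fun e' he' => hμ e' (List.mem_cons_of_mem _ he')
  have hμe : μ (e.el p) ≤ 2 := hμ e List.mem_cons_self
  rw [tot_cons] at hcap htg ⊢
  have hcov : Cov μ ((e :: es).map (Ent.el p)) X
      = Cov μ (es.map (Ent.el p)) (addI X (e.el p) (μ (e.el p))) := rfl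
  have hcode : codeOf p μ (e :: es) code = codeOf p μ es (3 * code + μ (e.el p)) := rfl
  rw [hcov, hcode]
  have h12 : μ (e.el p) = 1 ∨ μ (e.el p) = 2 := by omega
  rcases h12 with h1 | h2
  · rw [h1]
    have := goLine_sound μ tg cap k es (e.step (2 ^ (p * p) - 1) m) (cnt + 1) 1 (3 * code + 1)
      (addI X (e.el p) 1) hOK' (step1_sound hp heOK hX) hμ' (by omega) (by omega) h.1
    rw [add_assoc cnt] at this
    exact this
  · rw [h2]
    have h22 : goLine (2 ^ (p * p) - 1) tg cap k es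
        (e.step (2 ^ (p * p) - 1) (e.step (2 ^ (p * p) - 1) m)) (cnt + 2) 2 (3 * code + 2) = true := by
      rcases h.2 with h3 | h3
      · exfalso
        rw [Nat.blt_eq] at h3
        omega
      · exact h3
    have := goLine_sound μ tg cap k es (e.step (2 ^ (p * p) - 1) (e.step (2 ^ (p * p) - 1) m))
      (cnt + 2) 2 (3 * code + 2)
      (addI X (e.el p) 2) hOK' (step2_sound hp heOK hX) hμ' (by omega) (by omega) h22
    rw [add_assoc cnt] at this
    exact this

theorem goTop_sound [NeZero p] (μ : ZMod p × ZMod p → ℕ) (tg cap : ℕ) (leaf : ℕ → Bool)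
    (e0 : Ent) (es0 : List Ent) (e1 : Ent) (es1 : List Ent) (Ls : List (List Ent))
    (hOK : ∀ e' ∈ (e0 :: es0) ++ ((e1 :: es1) ++ Ls.flatten), e'.OK p)
    (hμ : ∀ e' ∈ (e0 :: es0) ++ ((e1 :: es1) ++ Ls.flatten), μ (e'.el p) ≤ 2)
    (hμ0 : 1 ≤ μ (e0.el p)) (hμ1 : 1 ≤ μ (e1.el p))
    (hcap0 : tot p μ (e0 :: es0) ≤ cap)
    (hcap1 : tot p μ (e1 :: es1) ≤ tot p μ (e0 :: es0))
    (hcap : ∀ L ∈ Ls, tot p μ L ≤ tot p μ (e1 :: es1))
    (htg : tot p μ ((e0 :: es0) ++ ((e1 :: es1) ++ Ls.flatten)) = tg)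
    (h : goTop (2 ^ (p * p) - 1) tg cap leaf e0 es0 e1 es1 Ls = true) :
    Cov μ (((e0 :: es0) ++ ((e1 :: es1) ++ Ls.flatten)).map (Ent.el p)) {0} = Set.univ ∨
      leaf (codeOf p μ ((e0 :: es0) ++ ((e1 :: es1) ++ Ls.flatten)) 0) = true := by
  have hp : 0 < p := Nat.pos_of_ne_zero (NeZero.ne p)
  rw [List.map_append, List.map_append, Cov_append, Cov_append, codeOf_append, codeOf_append]
  rw [tot_append, tot_append] at htg
  have hR1 : RepM p 1 ({0} : Set (ZMod p × ZMod p)) := by
    intro i hi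
    have : i = 0 := by
      by_contra hne
      have : (1 : ℕ).testBit i = false := by
        rw [Nat.testBit_one_eq_true_iff_self_eq_zero.not.mpr hne |> (Bool.eq_false_iff.mpr ·)]
      rw [this] at hi
      exact absurd hi (by simp)
    subst this
    exact ⟨Nat.mul_pos hp hp, by simp [dec]⟩
  have hOK0 : ∀ e' ∈ e0 :: es0, e'.OK p := fun e' h' => hOK e' (List.mem_append_left _ h')
  have hOK1 : ∀ e' ∈ e1 :: es1, e'.OK p := fun e' h' =>
    hOK e' (List.mem_append_right _ (List.mem_append_left _ h'))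
  have hOK2 : ∀ L ∈ Ls, ∀ e' ∈ L, e'.OK p := fun L hL e' h' =>
    hOK e' (List.mem_append_right _ (List.mem_append_right _ (List.mem_flatten.mpr ⟨L, hL, h'⟩)))
  have hμa : ∀ e' ∈ e0 :: es0, μ (e'.el p) ≤ 2 := fun e' h' => hμ e' (List.mem_append_left _ h')
  have hμb : ∀ e' ∈ e1 :: es1, μ (e'.el p) ≤ 2 := fun e' h' =>
    hμ e' (List.mem_append_right _ (List.mem_append_left _ h'))
  have hμc : ∀ L ∈ Ls, ∀ e' ∈ L, μ (e'.el p) ≤ 2 := fun L hL e' h' =>
    hμ e' (List.mem_append_right _ (List.mem_append_right _ (List.mem_flatten.mpr ⟨L, hL, h'⟩)))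
  unfold goTop at h
  rcases goFirst_sound μ tg cap _ e0 es0 1 0 0 {0} hOK0 hR1 hμa hμ0 hcap0 (by omega) h with
    h1 | ⟨m', hm', hk⟩
  · left
    rw [h1, Cov_univ, Cov_univ]
  · rcases goFirst_sound μ tg _ _ e1 es1 m' _ _ _ hOK1 hm' hμb hμ1 hcap1 (by omega) hk with
      h2 | ⟨m'', hm'', hk'⟩
    · left
      rw [h2, Cov_univ]
    · exact goRest_sound μ tg _ leaf Ls m'' _ _ _ hOK2 hm'' hμc hcap (by omega) hk'

end

end Pool.Agent.MP7e2af8
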