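import Pool.Agent.Lib_MP_7e2af8_co.DDSH

/-! Iterated Cauchy-Davenport, the fibre lemma and the coverage lemma. -/

namespace Pool.Agent.MP7e2af8

open Finset
open scoped Pointwise

variable {p : ℕ} [hp : Fact p.Prime]

lemma cd_iter {ι : Type*} [DecidableEq ι] (I : Finset ι) (X : ι → Finset (ZMod p)) (k : ι → ℕ)
    (hk : ∀ i ∈ I, min p (k i + 1) ≤ (X i).card) :
    ∃ Y : Finset (ZMod p), min p (∑ i ∈ I, k i + 1) ≤ Y.card ∧
      ∀ y ∈ Y, ∃ x : ι → ZMod p, (∀ i ∈ I, x i ∈ X i) ∧ ∑ i ∈ I, x i = y := by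
  classical
  have hp1 : 1 < p := hp.out.one_lt
  induction I using Finset.induction_on with
  | empty =>
    refine ⟨{0}, by simp, ?_⟩
    intro y hy
    rw [Finset.mem_singleton] at hy
    exact ⟨fun _ => 0, by simp, by simp [hy]⟩
  | insert a I ha ih =>
    obtain ⟨Y, hY1, hY2⟩ := ih (fun i hi => hk i (Finset.mem_insert_of_mem hi))
    have hka := hk a (Finset.mem_insert_self a I)
    have hYne : Y.Nonempty := by
      rw [← Finset.card_pos]
      have : 0 < min p (∑ i ∈ I, k i + 1) := by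
        rw [lt_min_iff]; omega
      omega
    have hXne : (X a).Nonempty := by
      rw [← Finset.card_pos]
      have : 0 < min p (k a + 1) := by
        rw [lt_min_iff]; omega
      omega
    refine ⟨X a + Y, ?_, ?_⟩
    · have := ZMod.cauchy_davenport hp.out hXne hYne
      rw [Finset.sum_insert ha]
      omega
    · intro z hz
      rw [Finset.mem_add] at hz
      obtain ⟨u, hu, y, hy, rfl⟩ := hz
      obtain ⟨x, hx1, hx2⟩ := hY2 y hy
      refine ⟨fun i => if i = a then u else x i, ?_, ?_⟩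
      · intro i hi
        by_cases h : i = a
        · subst h; simpa using hu
        · simp only [h, if_false]
          exact hx1 i (Finset.mem_of_mem_insert_of_ne hi h)
      · rw [Finset.sum_insert ha]
        simp only [if_true]
        congr 1
        rw [← hx2]
        refine Finset.sum_congr rfl fun i hi => ?_
        have : i ≠ a := fun h => ha (h ▸ hi)
        simp [this]

lemma cd_choice {ι : Type*} [DecidableEq ι] (I : Finset ι) (X : ι → Finset (ZMod p)) (k : ι → ℕ)
    (hk : ∀ i ∈ I, min p (k i + 1) ≤ (X i).card) (hsum : p ≤ ∑ i ∈ I, k i + 1) (h : ZMod p) :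
    ∃ x : ι → ZMod p, (∀ i ∈ I, x i ∈ X i) ∧ ∑ i ∈ I, x i = h := by
  obtain ⟨Y, hY1, hY2⟩ := cd_iter I X k hk
  apply hY2
  rw [min_eq_left hsum] at hY1
  have : Y = Finset.univ := by
    rw [← Finset.card_eq_iff_eq_univ, ZMod.card]
    apply le_antisymm _ hY1
    have := Finset.card_le_univ Y
    rwa [ZMod.card] at this
  rw [this]
  exact Finset.mem_univ h

/-- All subset sums of a finite set of residues. -/
def ssums (F : Finset (ZMod p)) : Finset (ZMod p) := F.powerset.image (fun B => ∑ x ∈ B, x)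

lemma mem_ssums {F : Finset (ZMod p)} {y : ZMod p} :
    y ∈ ssums F ↔ ∃ B ⊆ F, ∑ x ∈ B, x = y := by
  simp [ssums]

lemma ssums_card (F : Finset (ZMod p)) (h0 : (0 : ZMod p) ∉ F) :
    min p ((F.card + 1) ^ 2 / 4 + 1) ≤ (ssums F).card := by
  classical
  set A := insert (0 : ZMod p) F with hA
  have hAc : A.card = F.card + 1 := Finset.card_insert_of_notMem h0
  have h1 := ddsh A (A.card / 2) (Nat.div_le_self _ _)
  have h2 : A.card / 2 * (A.card - A.card / 2) = (F.card + 1) ^ 2 / 4 := by
    rw [hAc]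
    rcases Nat.even_or_odd' (F.card + 1) with ⟨c, hc | hc⟩
    · rw [hc]
      have e1 : 2 * c / 2 = c := by omega
      have e2 : 2 * c - c = c := by omega
      rw [e1, e2]
      have : (2 * c) ^ 2 = 4 * (c * c) := by ring
      rw [this]
      omega
    · rw [hc]
      have e1 : (2 * c + 1) / 2 = c := by omega
      have e2 : 2 * c + 1 - c = c + 1 := by omega
      rw [e1, e2]
      have : (2 * c + 1) ^ 2 = 4 * (c * (c + 1)) + 1 := by ring
      rw [this]
      omega
  rw [h2] at h1
  refine h1.trans (Finset.card_le_card ?_)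
  intro y hy
  unfold jsums at hy
  rw [Finset.mem_image] at hy
  obtain ⟨B, hB, rfl⟩ := hy
  rw [Finset.mem_powersetCard] at hB
  rw [mem_ssums]
  refine ⟨B.erase 0, ?_, ?_⟩
  · intro x hx
    rw [Finset.mem_erase] at hx
    have := hB.1 hx.2
    rw [hA, Finset.mem_insert] at this
    exact this.resolve_left hx.1
  · exact Finset.sum_erase B rfl

/-- The fibre of `S` over the first coordinate `c`. -/
def fib (S : Finset (ZMod p × ZMod p)) (c : ZMod p) : Finset (ZMod p) :=
  (S.filter (fun x => x.1 = c)).image Prod.snd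

lemma mem_fib {S : Finset (ZMod p × ZMod p)} {c y : ZMod p} : y ∈ fib S c ↔ (c, y) ∈ S := by
  unfold fib
  simp only [Finset.mem_image, Finset.mem_filter, Prod.exists]
  constructor
  · rintro ⟨a, b, ⟨h1, h2⟩, h3⟩
    subst h2 h3
    exact h1
  · intro h
    exact ⟨c, y, ⟨h, rfl⟩, rfl⟩

lemma fib_card (S : Finset (ZMod p × ZMod p)) (c : ZMod p) :
    (fib S c).card = (S.filter (fun x => x.1 = c)).card := by
  unfold fib
  rw [Finset.card_image_of_injOn]
  intro x hx y hy hxy
  simp only [Finset.coe_filter, Set.mem_ofPred_eq] at hx hy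
  exact Prod.ext (hx.2.trans hy.2.symm) hxy

lemma glue (S : Finset (ZMod p × ZMod p)) (Bc : ZMod p → Finset (ZMod p))
    (hB : ∀ c, Bc c ⊆ fib S c) :
    ∃ B ⊆ S, ∑ b ∈ B, b = (∑ c, (Bc c).card • c, ∑ c, ∑ y ∈ Bc c, y) := by
  classical
  refine ⟨Finset.univ.biUnion (fun c => (Bc c).image (fun y => (c, y))), ?_, ?_⟩
  · intro x hx
    rw [Finset.mem_biUnion] at hx
    obtain ⟨c, _, hx⟩ := hx
    rw [Finset.mem_image] at hx
    obtain ⟨y, hy, rfl⟩ := hx
    exact mem_fib.mp (hB c hy)
  · rw [Finset.sum_biUnion]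
    · have : ∀ c ∈ (Finset.univ : Finset (ZMod p)), ∑ b ∈ (Bc c).image (fun y => (c, y)), b
          = ((Bc c).card • c, ∑ y ∈ Bc c, y) := by
        intro c _
        rw [Finset.sum_image (fun a _ b _ h => (Prod.mk.inj h).2)]
        rw [Prod.ext_iff]
        constructor
        · rw [Prod.fst_sum]; simp
        · rw [Prod.snd_sum]
      rw [Finset.sum_congr rfl this, Prod.ext_iff]
      constructor
      · rw [Prod.fst_sum]
      · rw [Prod.snd_sum]
    · intro a _ b _ hab
      rw [Function.onFun, Finset.disjoint_left]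
      intro x hx hx'
      rw [Finset.mem_image] at hx hx'
      obtain ⟨y, _, rfl⟩ := hx
      obtain ⟨z, _, hz⟩ := hx'
      exact hab (Prod.mk.inj hz).1.symm

/-- The fibre lemma. -/
lemma fiber_lemma (S : Finset (ZMod p × ZMod p)) (h0 : (0, 0) ∉ S) (t : ZMod p)
    (j : ZMod p → ℕ) (hj : ∀ c, c ≠ 0 → j c ≤ (fib S c).card)
    (ht : ∑ c ∈ Finset.univ.erase 0, j c • c = t)
    (hg : p ≤ ∑ c ∈ Finset.univ.erase 0, j c * ((fib S c).card - j c)
      + ((fib S 0).card + 1) ^ 2 / 4 + 1) (h : ZMod p) :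
    ∃ B ⊆ S, ∑ b ∈ B, b = (t, h) := by
  classical
  let X : ZMod p → Finset (ZMod p) := fun c =>
    if c = 0 then ssums (fib S 0) else jsums (fib S c) (j c)
  let k : ZMod p → ℕ := fun c =>
    if c = 0 then ((fib S 0).card + 1) ^ 2 / 4 else j c * ((fib S c).card - j c)
  have hk : ∀ c ∈ (Finset.univ : Finset (ZMod p)), min p (k c + 1) ≤ (X c).card := by
    intro c _
    by_cases hc : c = 0
    · simp only [k, X, hc, if_true]
      exact ssums_card _ (fun hh => h0 (mem_fib.mp hh))
    · simp only [k, X, hc, if_false]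
      exact ddsh _ _ (hj c hc)
  have hsum : p ≤ ∑ c ∈ (Finset.univ : Finset (ZMod p)), k c + 1 := by
    rw [← Finset.sum_erase_add _ _ (Finset.mem_univ (0 : ZMod p))]
    have : ∑ c ∈ Finset.univ.erase (0 : ZMod p), k c
        = ∑ c ∈ Finset.univ.erase (0 : ZMod p), j c * ((fib S c).card - j c) := by
      refine Finset.sum_congr rfl fun c hc => ?_
      have : c ≠ 0 := Finset.ne_of_mem_erase hc
      simp [k, this]
    rw [this]
    simpa [k] using hg
  obtain ⟨x, hx1, hx2⟩ := cd_choice Finset.univ X k hk hsum h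
  have hB : ∀ c, ∃ B : Finset (ZMod p), B ⊆ fib S c ∧ ∑ y ∈ B, y = x c ∧ (c ≠ 0 → B.card = j c) := by
    intro c
    have hxc := hx1 c (Finset.mem_univ c)
    by_cases hc : c = 0
    · subst hc
      simp only [X, if_true] at hxc
      obtain ⟨B, hB1, hB2⟩ := mem_ssums.mp hxc
      exact ⟨B, hB1, hB2, fun h => absurd rfl h⟩
    · simp only [X, hc, if_false] at hxc
      unfold jsums at hxc
      rw [Finset.mem_image] at hxc
      obtain ⟨B, hB1, hB2⟩ := hxc
      rw [Finset.mem_powersetCard] at hB1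
      exact ⟨B, hB1.1, hB2, fun _ => hB1.2⟩
  choose Bc hBc1 hBc2 hBc3 using hB
  obtain ⟨B, hBS, hBsum⟩ := glue S Bc hBc1
  refine ⟨B, hBS, ?_⟩
  rw [hBsum, Prod.ext_iff]
  constructor
  · simp only
    rw [← ht, ← Finset.sum_erase_add _ _ (Finset.mem_univ (0 : ZMod p))]
    simp only [smul_zero, add_zero]
    refine Finset.sum_congr rfl fun c hc => ?_
    rw [hBc3 c (Finset.ne_of_mem_erase hc)]
  · simp only
    rw [← hx2]
    exact Finset.sum_congr rfl fun c _ => hBc2 c

/-- The coverage lemma (layers). -/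
lemma coverage (w : ZMod p → ℕ) (W : ℕ)
    (hW : p ≤ ∑ i ∈ Finset.range W,
      ((((Finset.univ.erase (0 : ZMod p)).filter (fun c => i + 1 ≤ w c)).card + 1) ^ 2 / 4) + 1)
    (t : ZMod p) :
    ∃ u : ZMod p → ℕ, (∀ c, u c ≤ w c) ∧ ∑ c ∈ Finset.univ.erase (0 : ZMod p), u c • c = t := by
  classical
  let L : ℕ → Finset (ZMod p) := fun i =>
    (Finset.univ.erase (0 : ZMod p)).filter (fun c => i + 1 ≤ w c)
  obtain ⟨x, hx1, hx2⟩ := cd_choice (Finset.range W) (fun i => ssums (L i))
    (fun i => ((L i).card + 1) ^ 2 / 4)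
    (fun i _ => ssums_card _ (by simp [L])) hW t
  have hB : ∀ i, ∃ B : Finset (ZMod p), i ∈ Finset.range W → (B ⊆ L i ∧ ∑ y ∈ B, y = x i) := by
    intro i
    by_cases hi : i ∈ Finset.range W
    · obtain ⟨B, hB1, hB2⟩ := mem_ssums.mp (hx1 i hi)
      exact ⟨B, fun _ => ⟨hB1, hB2⟩⟩
    · exact ⟨∅, fun h => absurd h hi⟩
  choose B hB using hB
  refine ⟨fun c => ((Finset.range W).filter (fun i => c ∈ B i)).card, ?_, ?_⟩
  · intro c
    have : (Finset.range W).filter (fun i => c ∈ B i) ⊆ Finset.range (w c) := by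
      intro i hi
      rw [Finset.mem_filter] at hi
      have := (hB i hi.1).1 hi.2
      simp only [L, Finset.mem_filter] at this
      rw [Finset.mem_range]
      omega
    simpa using Finset.card_le_card this
  · rw [← hx2]
    have h1 : ∀ i ∈ Finset.range W, x i = ∑ c ∈ Finset.univ.erase (0 : ZMod p),
        if c ∈ B i then c else 0 := by
      intro i hi
      rw [← (hB i hi).2, ← Finset.sum_filter]
      congr 1
      ext c
      rw [Finset.mem_filter]
      constructor
      · intro h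
        refine ⟨?_, h⟩
        have := (hB i hi).1 h
        simp only [L, Finset.mem_filter] at this
        exact this.1
      · exact fun h => h.2
    rw [Finset.sum_congr rfl h1, Finset.sum_comm]
    refine Finset.sum_congr rfl fun c _ => ?_
    rw [← Finset.sum_filter, Finset.sum_const]

/-- The criterion: a choice of `w` gives all subset sums. -/
lemma criterion (S : Finset (ZMod p × ZMod p)) (h0 : (0, 0) ∉ S) (w : ZMod p → ℕ) (W : ℕ)
    (hw1 : ∀ c, w c ≤ (fib S c).card) (hw2 : ∀ c, c ≠ 0 → w c % 2 = (fib S c).card % 2)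
    (hW : p ≤ ∑ i ∈ Finset.range W,
      ((((Finset.univ.erase (0 : ZMod p)).filter (fun c => i + 1 ≤ w c)).card + 1) ^ 2 / 4) + 1)
    (hcost : 4 * (p - 1) + ∑ c ∈ Finset.univ.erase (0 : ZMod p), w c ^ 2 ≤
      ∑ c ∈ Finset.univ.erase (0 : ZMod p), (fib S c).card ^ 2
        + 4 * (((fib S 0).card + 1) ^ 2 / 4)) (g : ZMod p × ZMod p) :
    ∃ B ⊆ S, ∑ b ∈ B, b = g := by
  classical
  have hp1 : 1 < p := hp.out.one_lt
  let b : ZMod p → ℕ := fun c => ((fib S c).card - w c) / 2
  have hb : ∀ c, c ≠ 0 → 2 * b c + w c = (fib S c).card := by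
    intro c hc
    have h1 := hw1 c
    have h2 := hw2 c hc
    simp only [b]
    omega
  obtain ⟨u, hu1, hu2⟩ := coverage w W hW
    (g.1 - ∑ c ∈ Finset.univ.erase (0 : ZMod p), b c • c)
  have := fiber_lemma S h0 g.1 (fun c => b c + u c) ?_ ?_ ?_ g.2
  · simpa using this
  · intro c hc
    have h1 := hb c hc
    have h2 := hu1 c
    omega
  · simp only [add_smul]
    rw [Finset.sum_add_distrib, hu2]
    ring
  · have key : ∀ c ∈ Finset.univ.erase (0 : ZMod p),
        (fib S c).card ^ 2 ≤ w c ^ 2 + 4 * ((b c + u c) * ((fib S c).card - (b c + u c))) := by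
      intro c hc
      have h1 := hb c (Finset.ne_of_mem_erase hc)
      have h2 := hu1 c
      have h3 : (fib S c).card - (b c + u c) = b c + (w c - u c) := by omega
      rw [h3]
      obtain ⟨v, hv⟩ := Nat.exists_eq_add_of_le h2
      rw [hv]
      have h4 : u c + v - u c = v := by omega
      rw [h4, ← h1, hv]
      nlinarith [Nat.zero_le (u c * v), Nat.zero_le (b c * u c), Nat.zero_le (b c * v)]
    have key2 := Finset.sum_le_sum key
    rw [Finset.sum_add_distrib, ← Finset.mul_sum] at key2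
    omega

end Pool.Agent.MP7e2af8
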