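import Pool.Agent.Lib_MP_7e2af8_co.SearchSound
import Pool.Agent.Lib_MP_7e2af8_co.Avg

/-! Subset sums of `S` depend, up to translation, only on the multiplicities
`mu S x = |S ∩ {x, -x}|`. -/

namespace Pool.Agent.MP7e2af8

open Finset

variable {p : ℕ}

/-- Number of elements of `S` equal to `x` or `-x`. -/
def mu (S : Finset (ZMod p × ZMod p)) (x : ZMod p × ZMod p) : ℕ :=
  (S.filter (fun y => y = x ∨ y = -x)).card

/-- The shift attached to a representative. -/
def sh (S : Finset (ZMod p × ZMod p)) (x : ZMod p × ZMod p) : ZMod p × ZMod p :=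
  if -x ∈ S then -x else 0

lemma mu_le_two (S : Finset (ZMod p × ZMod p)) (x : ZMod p × ZMod p) : mu S x ≤ 2 := by
  unfold mu
  have : S.filter (fun y => y = x ∨ y = -x) ⊆ {x, -x} := by
    intro y hy
    rw [Finset.mem_filter] at hy
    simpa using hy.2
  exact (Finset.card_le_card this).trans Finset.card_le_two

lemma filter_pm (S : Finset (ZMod p × ZMod p)) (x : ZMod p × ZMod p) :
    S.filter (fun y => y = x ∨ y = -x) =
      (if x ∈ S then {x} else ∅) ∪ (if -x ∈ S then {-x} else ∅) := by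
  classical
  ext y
  rw [Finset.mem_filter, Finset.mem_union]
  constructor
  · rintro ⟨h1, rfl | rfl⟩
    · left; rw [if_pos h1]; simp
    · right; rw [if_pos h1]; simp
  · rintro (h | h)
    · split_ifs at h with h1
      · rw [Finset.mem_singleton] at h; subst h; exact ⟨h1, Or.inl rfl⟩
      · simp at h
    · split_ifs at h with h1
      · rw [Finset.mem_singleton] at h; subst h; exact ⟨h1, Or.inr rfl⟩
      · simp at h

lemma mu_eq (S : Finset (ZMod p × ZMod p)) (x : ZMod p × ZMod p) (hx : x ≠ -x) :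
    mu S x = (if x ∈ S then 1 else 0) + (if -x ∈ S then 1 else 0) := by
  classical
  unfold mu
  rw [filter_pm, Finset.card_union_of_disjoint]
  · split_ifs <;> simp
  · rw [Finset.disjoint_left]
    intro y h1 h2
    split_ifs at h1 h2
    · rw [Finset.mem_singleton] at h1 h2
      exact hx (h1.symm.trans h2)
    all_goals simp at h1 h2

lemma local1 (S : Finset (ZMod p × ZMod p)) (x : ZMod p × ZMod p) (hx : x ≠ -x) (i : ℕ)
    (hi : i ≤ mu S x) :
    ∃ B ⊆ S.filter (fun y => y = x ∨ y = -x), ∑ b ∈ B, b = sh S x + i • x := by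
  classical
  rw [mu_eq S x hx] at hi
  unfold sh
  by_cases h1 : x ∈ S <;> by_cases h2 : -x ∈ S
  · simp only [h1, h2, if_true] at hi ⊢
    have : i = 0 ∨ i = 1 ∨ i = 2 := by omega
    rcases this with rfl | rfl | rfl
    · refine ⟨{-x}, ?_, by simp⟩
      intro y hy
      rw [Finset.mem_singleton] at hy
      subst hy
      rw [Finset.mem_filter]
      exact ⟨h2, Or.inr rfl⟩
    · exact ⟨∅, by simp, by simp⟩
    · refine ⟨{x}, ?_, ?_⟩
      · intro y hy
        rw [Finset.mem_singleton] at hy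
        subst hy
        rw [Finset.mem_filter]
        exact ⟨h1, Or.inl rfl⟩
      · rw [Finset.sum_singleton, two_nsmul]; abel
  · simp only [h1, h2, if_true, if_false] at hi ⊢
    have : i = 0 ∨ i = 1 := by omega
    rcases this with rfl | rfl
    · exact ⟨∅, by simp, by simp⟩
    · refine ⟨{x}, ?_, by simp⟩
      intro y hy
      rw [Finset.mem_singleton] at hy
      subst hy
      rw [Finset.mem_filter]
      exact ⟨h1, Or.inl rfl⟩
  · simp only [h1, h2, if_true, if_false] at hi ⊢
    have : i = 0 ∨ i = 1 := by omega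
    rcases this with rfl | rfl
    · refine ⟨{-x}, ?_, by simp⟩
      intro y hy
      rw [Finset.mem_singleton] at hy
      subst hy
      rw [Finset.mem_filter]
      exact ⟨h2, Or.inr rfl⟩
    · exact ⟨∅, by simp, by simp⟩
  · simp only [h1, h2, if_false] at hi ⊢
    have : i = 0 := by omega
    subst this
    exact ⟨∅, by simp, by simp⟩

lemma local2 (S : Finset (ZMod p × ZMod p)) (x : ZMod p × ZMod p) (hx : x ≠ -x)
    (B : Finset (ZMod p × ZMod p)) (hB : B ⊆ S.filter (fun y => y = x ∨ y = -x)) :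
    ∃ i ≤ mu S x, ∑ b ∈ B, b = sh S x + i • x := by
  classical
  have hBsum : ∑ b ∈ B, b = (if x ∈ B then x else 0) + (if -x ∈ B then -x else 0) := by
    have : B = (if x ∈ B then {x} else ∅) ∪ (if -x ∈ B then {-x} else ∅) := by
      rw [← filter_pm]
      ext y
      rw [Finset.mem_filter]
      exact ⟨fun h => ⟨h, (Finset.mem_filter.mp (hB h)).2⟩, fun h => h.1⟩
    conv_lhs => rw [this]
    rw [Finset.sum_union]
    · split_ifs <;> simp
    · rw [Finset.disjoint_left]
      intro y h1 h2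
      split_ifs at h1 h2
      · rw [Finset.mem_singleton] at h1 h2
        exact hx (h1.symm.trans h2)
      all_goals simp at h1 h2
  rw [mu_eq S x hx, hBsum]
  unfold sh
  have hxB : x ∈ B → x ∈ S := fun h => (Finset.mem_filter.mp (hB h)).1
  have hxB' : -x ∈ B → -x ∈ S := fun h => (Finset.mem_filter.mp (hB h)).1
  by_cases h1 : x ∈ B <;> by_cases h2 : -x ∈ B
  · refine ⟨1, ?_, ?_⟩
    · simp [hxB h1]
    · simp [h1, h2, hxB' h2]
  · by_cases h3 : -x ∈ S
    · refine ⟨2, ?_, ?_⟩
      · simp [hxB h1, h3]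
      · simp only [h1, h2, h3, if_true, if_false, two_nsmul]; abel
    · refine ⟨1, ?_, ?_⟩
      · simp [hxB h1]
      · simp [h1, h2, h3]
  · refine ⟨0, Nat.zero_le _, ?_⟩
    simp [h1, h2, hxB' h2]
  · by_cases h3 : -x ∈ S
    · refine ⟨1, ?_, ?_⟩
      · simp [h3]
      · simp [h1, h2, h3]
    · refine ⟨0, Nat.zero_le _, ?_⟩
      simp [h1, h2, h3]

/-- Total shift. -/
def Sh (S : Finset (ZMod p × ZMod p)) (rs : List (ZMod p × ZMod p)) : ZMod p × ZMod p :=
  (rs.map (sh S)).sum

lemma cov_to_sum (S : Finset (ZMod p × ZMod p)) (rs : List (ZMod p × ZMod p))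
    (hne : ∀ r ∈ rs, r ≠ -r) (hpw : rs.Pairwise (fun r r' => r ≠ r' ∧ r ≠ -r'))
    (X : Set (ZMod p × ZMod p)) (y : ZMod p × ZMod p) (hy : y ∈ Cov (mu S) rs X) :
    ∃ x ∈ X, ∃ B ⊆ S.filter (fun z => ∃ r ∈ rs, z = r ∨ z = -r),
      y + Sh S rs = x + ∑ b ∈ B, b := by
  classical
  induction rs generalizing X with
  | nil => exact ⟨y, hy, ∅, by simp, by simp [Sh]⟩
  | cons r rs ih =>
    rw [List.pairwise_cons] at hpw
    obtain ⟨x', hx', B', hB', hs⟩ := ih (fun r' h' => hne r' (List.mem_cons_of_mem _ h')) hpw.2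
      (addI X r (mu S r)) hy
    obtain ⟨x, hx, i, hi, rfl⟩ := hx'
    obtain ⟨Br, hBr, hsr⟩ := local1 S r (hne r List.mem_cons_self) i hi
    refine ⟨x, hx, Br ∪ B', ?_, ?_⟩
    · intro z hz
      rw [Finset.mem_union] at hz
      rw [Finset.mem_filter]
      rcases hz with h | h
      · have := Finset.mem_filter.mp (hBr h)
        exact ⟨this.1, r, List.mem_cons_self, this.2⟩
      · obtain ⟨h1, r', hr', h2⟩ := Finset.mem_filter.mp (hB' h)
        exact ⟨h1, r', List.mem_cons_of_mem _ hr', h2⟩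
    · have hdis : Disjoint Br B' := by
        rw [Finset.disjoint_left]
        intro z h1 h2
        have h3 := (Finset.mem_filter.mp (hBr h1)).2
        obtain ⟨_, r', hr', h4⟩ := Finset.mem_filter.mp (hB' h2)
        have h5 := hpw.1 r' hr'
        rcases h3 with rfl | rfl
        · rcases h4 with h4 | h4
          · exact h5.1 h4
          · exact h5.2 h4
        · rcases h4 with h4 | h4
          · exact h5.2 (by rw [← h4, neg_neg])
          · exact h5.1 (neg_injective h4)
      rw [Finset.sum_union hdis, hsr]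
      have : Sh S (r :: rs) = sh S r + Sh S rs := by simp [Sh]
      rw [this]
      have h6 : y + (sh S r + Sh S rs) = (y + Sh S rs) + sh S r := by abel
      rw [h6, hs]
      abel

lemma sum_to_cov (S : Finset (ZMod p × ZMod p)) (rs : List (ZMod p × ZMod p))
    (hne : ∀ r ∈ rs, r ≠ -r)
    (X : Set (ZMod p × ZMod p)) (x : ZMod p × ZMod p) (hx : x ∈ X) (B : Finset (ZMod p × ZMod p))
    (hB : B ⊆ S.filter (fun z => ∃ r ∈ rs, z = r ∨ z = -r)) :
    x + ∑ b ∈ B, b - Sh S rs ∈ Cov (mu S) rs X := by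
  classical
  induction rs generalizing X x B with
  | nil =>
    have : B = ∅ := by
      rw [Finset.eq_empty_iff_forall_notMem]
      intro z hz
      obtain ⟨_, r, hr, _⟩ := Finset.mem_filter.mp (hB hz)
      simp at hr
    subst this
    simpa [Sh, Cov] using hx
  | cons r rs ih =>
    have h1 : B.filter (fun z => z = r ∨ z = -r) ⊆ S.filter (fun z => z = r ∨ z = -r) :=
      fun z hz => by
        rw [Finset.mem_filter] at hz ⊢
        exact ⟨(Finset.mem_filter.mp (hB hz.1)).1, hz.2⟩
    obtain ⟨i, hi, hsr⟩ := local2 S r (hne r List.mem_cons_self) _ h1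
    have h2 : B.filter (fun z => ¬ (z = r ∨ z = -r)) ⊆
        S.filter (fun z => ∃ r ∈ rs, z = r ∨ z = -r) := fun z hz => by
      rw [Finset.mem_filter] at hz ⊢
      obtain ⟨h3, r', hr', h4⟩ := Finset.mem_filter.mp (hB hz.1)
      refine ⟨h3, ?_⟩
      rw [List.mem_cons] at hr'
      rcases hr' with rfl | hr'
      · exact absurd h4 hz.2
      · exact ⟨r', hr', h4⟩
    have h3 := ih (fun r' h' => hne r' (List.mem_cons_of_mem _ h')) (addI X r (mu S r))
      (x + i • r) ⟨x, hx, i, hi, rfl⟩ _ h2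
    have h4 : Cov (mu S) (r :: rs) X = Cov (mu S) rs (addI X r (mu S r)) := rfl
    rw [h4]
    convert h3 using 1
    rw [← Finset.sum_filter_add_sum_filter_not B (fun z => z = r ∨ z = -r), hsr]
    have : Sh S (r :: rs) = sh S r + Sh S rs := by simp [Sh]
    rw [this]
    abel

/-- `rs` contains exactly one of `x`, `-x` for each nonzero `x`. -/
def IsReps (rs : List (ZMod p × ZMod p)) : Prop :=
  (∀ r ∈ rs, r ≠ -r) ∧ rs.Pairwise (fun r r' => r ≠ r' ∧ r ≠ -r') ∧
    ∀ z : ZMod p × ZMod p, z ≠ 0 → ∃ r ∈ rs, z = r ∨ z = -r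

lemma full_iff_cov (S : Finset (ZMod p × ZMod p)) (rs : List (ZMod p × ZMod p))
    (hrs : IsReps rs) : Full S ↔ Cov (mu S) rs {0} = Set.univ := by
  classical
  constructor
  · intro h
    rw [Set.eq_univ_iff_forall]
    intro g
    obtain ⟨B, hB, hs⟩ := h (g + Sh S rs)
    have h1 : B.erase 0 ⊆ S.filter (fun z => ∃ r ∈ rs, z = r ∨ z = -r) := fun z hz => by
      rw [Finset.mem_erase] at hz
      rw [Finset.mem_filter]
      exact ⟨hB hz.2, hrs.2.2 z hz.1⟩
    have h2 := sum_to_cov S rs hrs.1 {0} 0 rfl _ h1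
    rw [Finset.sum_erase B rfl, hs] at h2
    simpa using h2
  · intro h g
    obtain ⟨x, hx, B, hB, hs⟩ := cov_to_sum S rs hrs.1 hrs.2.1 {0} (g - Sh S rs)
      (by rw [h]; exact Set.mem_univ _)
    rw [Set.mem_singleton_iff] at hx
    subst hx
    refine ⟨B, fun z hz => (Finset.mem_filter.mp (hB hz)).1, ?_⟩
    rw [sub_add_cancel, zero_add] at hs
    exact hs.symm

lemma cov_congr (μ ν : ZMod p × ZMod p → ℕ) (rs : List (ZMod p × ZMod p))
    (h : ∀ r ∈ rs, μ r = ν r) (X : Set (ZMod p × ZMod p)) : Cov μ rs X = Cov ν rs X := by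
  induction rs generalizing X with
  | nil => rfl
  | cons r rs ih =>
    unfold Cov
    rw [h r List.mem_cons_self]
    exact ih (fun r' h' => h r' (List.mem_cons_of_mem _ h')) _

/-- Sets with the same `±`-multiplicities are full simultaneously. -/
lemma full_congr (S T : Finset (ZMod p × ZMod p)) (rs : List (ZMod p × ZMod p))
    (hrs : IsReps rs) (h : ∀ r ∈ rs, mu S r = mu T r) : Full S ↔ Full T := by
  rw [full_iff_cov S rs hrs, full_iff_cov T rs hrs, cov_congr _ _ rs h]

end Pool.Agent.MP7e2af8
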